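import Pool.Agent.H65.Stab.LemmaA2

set_option autoImplicit false

/-!
M13: the iteration and the pointwise bound.
-/

open MeasureTheory Set Filter Topology Metric
open scoped ContDiff

namespace Pool.Agent.H65.Stab

open Pool.Agent.H94.Stab

variable {n : ℕ}

/-- `∫_{t < s} R`. -/
noncomputable def JJ (u : E n → ℝ) (s : ℝ) : ℝ := (mR u).real (Iio s)

lemma JJ_nonneg (u : E n → ℝ) (s : ℝ) : 0 ≤ JJ u s := measureReal_nonneg

lemma mR_Iio_ne (hn : 1 ≤ n) {u : E n → ℝ} (hu : ContDiff ℝ ∞ u) (T : ℝ) : mR u (Iio T) ≠ ⊤ :=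
  ((measure_mono Iio_subset_Iic_self).trans_lt (mR_lt_top hn hu T)).ne

lemma JJ_add (hn : 1 ≤ n) {u : E n → ℝ} (hu : ContDiff ℝ ∞ u) {a b : ℝ} (h : a ≤ b) :
    JJ u b = JJ u a + RI u a b := by
  rw [RI_eq hu]
  unfold JJ
  rw [← measureReal_union ?_ measurableSet_Ico (mR_Iio_ne hn hu a) ?_, Iio_union_Ico_eq_Iio h]
  · rw [Set.disjoint_left]
    intro t h1 h2
    exact absurd h1 (not_lt.2 h2.1)
  · exact ((measure_mono (fun x hx => (hx.2 : x < b))).trans_lt
      (lt_top_iff_ne_top.2 (mR_Iio_ne hn hu b))).ne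

lemma JJ_mono (hn : 1 ≤ n) {u : E n → ℝ} (hu : ContDiff ℝ ∞ u) {a b : ℝ} (h : a ≤ b) :
    JJ u a ≤ JJ u b := by
  rw [JJ_add hn hu h]; linarith [RI_nonneg hu a b]

lemma RI_le_JJ (hn : 1 ≤ n) {u : E n → ℝ} (hu : ContDiff ℝ ∞ u) {a b : ℝ} (h : a ≤ b) :
    RI u a b ≤ JJ u b := by
  rw [JJ_add hn hu h]; linarith [JJ_nonneg u a]

lemma JJ_tendsto (hn : 1 ≤ n) {u : E n → ℝ} (hu : ContDiff ℝ ∞ u) :
    Tendsto (fun N : ℕ => JJ u (1 - N)) atTop (𝓝 0) := by
  have h1 : Tendsto (mR u ∘ fun N : ℕ => Iio (1 - (N : ℝ))) atTop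
      (𝓝 (mR u (⋂ N : ℕ, Iio (1 - (N : ℝ))))) := by
    refine tendsto_measure_iInter_atTop (fun N => measurableSet_Iio.nullMeasurableSet) ?_
      ⟨0, mR_Iio_ne hn hu _⟩
    intro N M hNM
    refine Iio_subset_Iio ?_
    have : (N : ℝ) ≤ M := by exact_mod_cast hNM
    linarith
  have h2 : (⋂ N : ℕ, Iio (1 - (N : ℝ))) = ∅ := by
    ext t
    simp only [mem_iInter, mem_Iio, mem_empty_iff_false, iff_false, not_forall, not_lt]
    obtain ⟨N, hN⟩ := exists_nat_gt (1 - t)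
    exact ⟨N, by linarith⟩
  rw [h2, measure_empty] at h1
  have h3 := (ENNReal.tendsto_toReal (a := 0) (by simp)).comp h1
  rw [ENNReal.toReal_zero] at h3
  exact h3

lemma rep_a (hn : 1 ≤ n) {C₀ c₀ : ℝ} {f F : ℝ → ℝ} {u : E n → ℝ}
    (hmon : ∀ (f F : ℝ → ℝ) (u : E n → ℝ), Stable (ball 0 1) f F u →
      ∀ s₀ s₁ : ℝ, s₀ + 1 ≤ s₁ → s₁ + 1 < 0 →
        dd u s₀ + c₀ * RI u (s₀ + 1) s₁ ≤
          dd u s₁ + C₀ * (RI u s₀ (s₀ + 1) + RI u s₁ (s₁ + 1))) (hC₀ : 0 < C₀) 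
    (hst : Stable (ball 0 1) f F u) {s : ℝ} (hs : s + 1 < 0) :
    c₀ * JJ u s ≤ dd u s + C₀ * RI u s (s + 1) := by
  have hu := hst.smooth
  have hJ := JJ_tendsto hn hu
  have h1 : Tendsto (fun N : ℕ => c₀ * (JJ u s - JJ u (1 - N))) atTop (𝓝 (c₀ * (JJ u s - 0))) :=
    (hJ.const_sub _).const_mul _
  have h2 : Tendsto (fun N : ℕ => dd u s + C₀ * (JJ u (1 - N) + RI u s (s + 1))) atTop
      (𝓝 (dd u s + C₀ * (0 + RI u s (s + 1)))) :=
    ((hJ.add_const _).const_mul _).const_add _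
  rw [sub_zero] at h1
  rw [zero_add] at h2
  obtain ⟨N₀, hN₀⟩ := exists_nat_gt (1 - s)
  refine le_of_tendsto_of_tendsto h1 h2 ?_
  filter_upwards [eventually_ge_atTop N₀] with N hN
  have hNr : (N₀ : ℝ) ≤ N := by exact_mod_cast hN
  have h3 := hmon f F u hst (-(N : ℝ)) s (by linarith) hs
  have h4 : -(N : ℝ) + 1 = 1 - N := by ring
  rw [h4] at h3
  have h5 := JJ_add hn hu (a := 1 - (N : ℝ)) (b := s) (by linarith)
  have h6 := RI_le_JJ hn hu (a := -(N : ℝ)) (b := 1 - N) (by linarith)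
  have h7 := dd_nonneg hu (-(N : ℝ))
  have h8 : c₀ * (JJ u s - JJ u (1 - N)) = c₀ * RI u (1 - N) s := by rw [h5]; ring
  have h9 : C₀ * RI u (-(N : ℝ)) (1 - N) ≤ C₀ * JJ u (1 - N) := mul_le_mul_of_nonneg_left h6 hC₀.le
  show c₀ * (JJ u s - JJ u (1 - N)) ≤ dd u s + C₀ * (JJ u (1 - N) + RI u s (s + 1))
  rw [h8]
  linarith

/-- abstract iteration. -/
lemma decay_step {C₀ c₀ δ : ℝ} (hC₀ : 0 < C₀) (hc₀ : 0 < c₀) (hδ : 0 < δ) :
    ∃ q : ℝ, 0 ≤ q ∧ q < 1 ∧ ∃ C₁ : ℝ, 0 ≤ C₁ ∧ ∀ (a d : ℕ → ℝ), (∀ i, 0 ≤ a i) → (∀ i, 0 ≤ d i) →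
      (∀ i, a (i + 1) ≤ a i) →
      (∀ i, c₀ * a i ≤ d i + (C₀ + c₀) * (a i - a (i + 1))) →
      (∀ i, d (i + 1) ≤ d i + C₀ * (a i - a (i + 2))) →
      (∀ i, a i - a (i + 2) ≤ δ * d i → d (i + 1) ≤ d i / 2) →
      ∀ i, a i ≤ q ^ i * (C₁ * (d 0 + a 0)) := by
  set κ : ℝ := 1 / (2 * C₀) with hκ
  have hκ0 : 0 < κ := by positivity
  have hκC : κ * C₀ = 1 / 2 := by rw [hκ]; field_simp
  set C₁ : ℝ := (1 + C₀ + c₀) / c₀ with hC₁
  have hC₁0 : 0 < C₁ := by positivity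
  set C₂ : ℝ := 2 * C₁ * (1 / δ + 1) + κ / δ + 1 with hC₂
  have hC₂0 : 1 ≤ C₂ := by rw [hC₂]; have : 0 ≤ 2 * C₁ * (1 / δ + 1) + κ / δ := by positivity
                           linarith
  set C₃ : ℝ := 2 * C₁ + 4 * C₁ / κ + 2 with hC₃
  have hC₃0 : 1 ≤ C₃ := by rw [hC₃]; have : 0 ≤ 2 * C₁ + 4 * C₁ / κ := by positivity
                           linarith
  set c : ℝ := min (1 / (2 * C₂)) (1 / C₃) with hc
  have hc0 : 0 < c := by rw [hc]; positivity
  have hc1 : c ≤ 1 / (2 * C₂) := min_le_left _ _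
  have hc2 : c ≤ 1 / C₃ := min_le_right _ _
  have hcle : c ≤ 1 := hc2.trans (by rw [div_le_one (by positivity)]; exact hC₃0)
  refine ⟨1 - c, by linarith, by linarith, 2 + κ, by positivity, ?_⟩
  intro a d ha hd hmono h1 h2 h3
  set Φ : ℕ → ℝ := fun i => a i + a (i + 1) + κ * d i with hΦ
  have hΦ0 : ∀ i, 0 ≤ Φ i := fun i => by
    have := ha i; have := ha (i + 1); have := hd i; simp only [hΦ]; positivity
  have hstep : ∀ i, Φ (i + 1) ≤ (1 - c) * Φ i := by
    intro i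
    set S : ℝ := a i - a (i + 2) with hS
    have hA1 : 0 ≤ a i - a (i + 1) := by linarith [hmono i]
    have hA2 : 0 ≤ a (i + 1) - a (i + 2) := by linarith [hmono (i + 1)]
    have hS0 : 0 ≤ S := by simp only [hS]; linarith
    have hAS : a i - a (i + 1) ≤ S := by simp only [hS]; linarith
    have hai : a i ≤ C₁ * (d i + S) := by
      have e1 := h1 i
      have e2 : (C₀ + c₀) * (a i - a (i + 1)) ≤ (C₀ + c₀) * S :=
        mul_le_mul_of_nonneg_left hAS (by positivity)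
      have e3 : c₀ * a i ≤ (1 + C₀ + c₀) * (d i + S) := by
        have e4 := hd i
        nlinarith [mul_nonneg (add_pos hC₀ hc₀).le e4]
      rw [hC₁, div_mul_eq_mul_div, le_div_iff₀ hc₀]
      linarith
    have hΦi : Φ i ≤ 2 * C₁ * (d i + S) + κ * d i := by
      simp only [hΦ]
      linarith [hmono i]
    have hΦs : Φ (i + 1) = a i + a (i + 1) - S + κ * d (i + 1) := by
      simp only [hΦ, hS]; ring
    have hdi := hd i
    by_cases hcase : S ≤ δ * d i
    · have e1 := h3 i hcase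
      have e2 : Φ (i + 1) ≤ Φ i - (S + κ * d i / 2) := by
        rw [hΦs]
        have : κ * d (i + 1) ≤ κ * (d i / 2) := mul_le_mul_of_nonneg_left e1 hκ0.le
        simp only [hΦ]
        linarith
      have e3 : Φ i ≤ C₃ * (S + κ * d i / 2) := by
        refine hΦi.trans ?_
        rw [hC₃]
        have e4 : (2 * C₁ + 4 * C₁ / κ + 2) * (S + κ * d i / 2)
            = (2 * C₁ + 4 * C₁ / κ + 2) * S + C₁ * κ * d i + 2 * C₁ * d i + κ * d i := by
          field_simp; ring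
        rw [e4]
        have e5 : 0 ≤ (4 * C₁ / κ + 2) * S := by positivity
        have e6 : 0 ≤ C₁ * κ * d i := by positivity
        nlinarith
      have e7 : c * Φ i ≤ S + κ * d i / 2 := by
        calc c * Φ i ≤ (1 / C₃) * Φ i := mul_le_mul_of_nonneg_right hc2 (hΦ0 i)
          _ ≤ (1 / C₃) * (C₃ * (S + κ * d i / 2)) := mul_le_mul_of_nonneg_left e3 (by positivity)
          _ = S + κ * d i / 2 := by field_simp
      linarith
    · push Not at hcase
      have e1 := h2 i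
      have e2 : Φ (i + 1) ≤ Φ i - S / 2 := by
        rw [hΦs]
        have e4 : κ * d (i + 1) ≤ κ * (d i + C₀ * S) := mul_le_mul_of_nonneg_left e1 hκ0.le
        have e5 : κ * (d i + C₀ * S) = κ * d i + S / 2 := by
          rw [mul_add, ← mul_assoc, hκC]; ring
        simp only [hΦ]
        linarith
      have e3 : d i ≤ S / δ := by rw [le_div_iff₀ hδ]; linarith
      have e4 : Φ i ≤ C₂ * S := by
        refine hΦi.trans ?_
        have e5 : 2 * C₁ * (d i + S) ≤ 2 * C₁ * (S / δ + S) :=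
          mul_le_mul_of_nonneg_left (by linarith) (by positivity)
        have e6 : κ * d i ≤ κ * (S / δ) := mul_le_mul_of_nonneg_left e3 hκ0.le
        have e7 : C₂ * S = 2 * C₁ * (S / δ + S) + κ * (S / δ) + S := by
          rw [hC₂]; ring
        linarith
      have e8 : c * Φ i ≤ S / 2 := by
        calc c * Φ i ≤ (1 / (2 * C₂)) * Φ i := mul_le_mul_of_nonneg_right hc1 (hΦ0 i)
          _ ≤ (1 / (2 * C₂)) * (C₂ * S) := mul_le_mul_of_nonneg_left e4 (by positivity)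
          _ = S / 2 := by field_simp
      linarith
  have hpow : ∀ i, Φ i ≤ (1 - c) ^ i * Φ 0 := by
    intro i
    induction i with
    | zero => simp
    | succ i ih =>
      calc Φ (i + 1) ≤ (1 - c) * Φ i := hstep i
        _ ≤ (1 - c) * ((1 - c) ^ i * Φ 0) := mul_le_mul_of_nonneg_left ih (by linarith)
        _ = (1 - c) ^ (i + 1) * Φ 0 := by ring
  intro i
  have f1 : a i ≤ Φ i := by
    have := ha (i + 1)
    have := mul_nonneg hκ0.le (hd i)
    simp only [hΦ]; linarith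
  have f2 : Φ 0 ≤ (2 + κ) * (d 0 + a 0) := by
    simp only [hΦ]
    have := hmono 0
    have := ha 0
    have := hd 0
    nlinarith
  exact f1.trans ((hpow i).trans (mul_le_mul_of_nonneg_left f2 (pow_nonneg (by linarith) i)))

lemma RI_bound (hn : 3 ≤ n) {u : E n → ℝ} (hu : ContDiff ℝ ∞ u) {a b : ℝ} (hb : b ≤ 0) :
    RI u a b ≤ Real.exp (-a * ((n : ℝ) - 2)) * ∫ x in ball (0 : E n) 1, gsq u x := by
  have h3 : (3 : ℝ) ≤ n := by exact_mod_cast hn
  have hint : IntegrableOn (gsq u) (ball (0 : E n) 1) :=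
    ((continuous_gsq hu).continuousOn.integrableOn_compact (isCompact_closedBall (0 : E n) 1)).mono_set
      ball_subset_closedBall
  unfold RI RR
  rw [← integral_const_mul, ← integral_indicator measurableSet_ball]
  refine integral_mono_of_nonneg (Eventually.of_forall fun x => ?_)
    ((integrable_indicator_iff measurableSet_ball).2 (hint.const_mul _)) ?_
  · refine mul_nonneg (wR_nonneg u x) ?_
    exact indicator_nonneg (fun _ _ => zero_le_one) _
  · filter_upwards [ae_ne_zero (n := n) (by omega)] with x hx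
    have hx' : 0 < ‖x‖ := norm_pos_iff.2 hx
    by_cases ht : Real.log ‖x‖ ∈ Ico a b
    · have hx1 : x ∈ ball (0 : E n) 1 := by
        rw [mem_ball_zero_iff]
        have := ht.2
        by_contra hcon
        have := Real.log_nonneg (not_lt.1 hcon)
        linarith
      rw [indicator_of_mem ht, indicator_of_mem hx1, mul_one]
      have h1 := wR_le_wD u hx
      unfold wR wD at h1
      refine h1.trans ?_
      rw [mul_comm]
      refine mul_le_mul_of_nonneg_right ?_ (gsq_nonneg u x)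
      rw [Real.rpow_def_of_pos hx', Real.exp_le_exp]
      nlinarith [ht.1]
    · rw [indicator_of_notMem ht, mul_zero]
      exact indicator_nonneg (fun y _ => mul_nonneg (Real.exp_pos _).le (gsq_nonneg u y)) x

lemma dd_bound (hn : 3 ≤ n) {K : ℝ} (hK : ∀ t, zeta t ≤ K) {u : E n → ℝ} (hu : ContDiff ℝ ∞ u)
    {s : ℝ} (hs : s + 1 ≤ 0) :
    dd u s ≤ K * Real.exp (-s * ((n : ℝ) - 2)) * ∫ x in ball (0 : E n) 1, gsq u x := by
  have h3 : (3 : ℝ) ≤ n := by exact_mod_cast hn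
  have hK0 : 0 ≤ K := (zeta_nonneg 0).trans (hK 0)
  have hint : IntegrableOn (gsq u) (ball (0 : E n) 1) :=
    ((continuous_gsq hu).continuousOn.integrableOn_compact (isCompact_closedBall (0 : E n) 1)).mono_set
      ball_subset_closedBall
  unfold dd DD
  rw [← integral_const_mul, ← integral_indicator measurableSet_ball]
  refine integral_mono_of_nonneg (Eventually.of_forall fun x => ?_)
    ((integrable_indicator_iff measurableSet_ball).2 (hint.const_mul _)) ?_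
  · exact mul_nonneg (wD_nonneg u x) (zeta_nonneg _)
  · filter_upwards [ae_ne_zero (n := n) (by omega)] with x hx
    have hx' : 0 < ‖x‖ := norm_pos_iff.2 hx
    by_cases ht : Real.log ‖x‖ ∈ Ico s (s + 1)
    · have hx1 : x ∈ ball (0 : E n) 1 := by
        rw [mem_ball_zero_iff]
        have := ht.2
        by_contra hcon
        have := Real.log_nonneg (not_lt.1 hcon)
        linarith
      rw [indicator_of_mem hx1]
      have h1 : ‖x‖ ^ (2 - (n : ℝ)) ≤ Real.exp (-s * ((n : ℝ) - 2)) := by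
        rw [Real.rpow_def_of_pos hx', Real.exp_le_exp]
        nlinarith [ht.1]
      have h2 := hK (Real.log ‖x‖ - s)
      have h4 := zeta_nonneg (Real.log ‖x‖ - s)
      have h5 := gsq_nonneg u x
      have h6 : 0 ≤ ‖x‖ ^ (2 - (n : ℝ)) := Real.rpow_nonneg hx'.le _
      calc gsq u x * ‖x‖ ^ (2 - (n : ℝ)) * zeta (Real.log ‖x‖ - s)
          ≤ gsq u x * Real.exp (-s * ((n : ℝ) - 2)) * K :=
            mul_le_mul (mul_le_mul_of_nonneg_left h1 h5) h2 h4 (by positivity)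
        _ = K * Real.exp (-s * ((n : ℝ) - 2)) * gsq u x := by ring
    · have hz : zeta (Real.log ‖x‖ - s) = 0 := by
        rw [mem_Ico, not_and_or, not_le, not_lt] at ht
        rcases ht with h | h
        · exact zeta_zero_le (by linarith)
        · exact zeta_zero_ge (by linarith)
      show gsq u x * ‖x‖ ^ (2 - (n : ℝ)) * zeta (Real.log ‖x‖ - s) ≤ _
      rw [hz, mul_zero]
      exact indicator_nonneg (fun y _ => mul_nonneg (mul_nonneg hK0 (Real.exp_pos _).le)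
        (gsq_nonneg u y)) x

/-- The representation statement. -/
def Repr (n : ℕ) : Prop := ∃ C > 0, ∃ c > 0, ∀ u : E n → ℝ, ContDiff ℝ ∞ u →
    ∃ U : ℝ → ℝ, Differentiable ℝ U ∧ (∀ s, deriv U s ^ 2 ≤ C * RI u s (s + 1)) ∧
      Tendsto U atBot (𝓝 (c * u 0)) ∧ (U (-2)) ^ 2 ≤ C * ∫ x in Metric.ball (0 : E n) 1, u x ^ 2

theorem pointwise_of (hn6 : 6 ≤ n) (hR : Repr n)
    (hmon : ∃ C : ℝ, 0 < C ∧ ∃ c : ℝ, 0 < c ∧
      ∀ (f F : ℝ → ℝ) (u : E n → ℝ), Stable (Metric.ball 0 1) f F u →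
      ∀ s₀ s₁ : ℝ, s₀ + 1 ≤ s₁ → s₁ + 1 < 0 →
        dd u s₀ + c * RI u (s₀ + 1) s₁ ≤
          dd u s₁ + C * (RI u s₀ (s₀ + 1) + RI u s₁ (s₁ + 1)))
    (hA : ∃ B : ℕ, 2 ≤ B ∧ ∃ δ > 0,
      ∀ (f F : ℝ → ℝ) (u : E n → ℝ), Stable (Metric.ball 0 1) f F u →
      ∀ s : ℝ, s + 1 < 0 → RI u (s - 2 * B + 1) (s + 1) ≤ δ * dd u s →
        dd u (s - B) ≤ dd u s / 2) :
    ∃ C : ℝ, ∀ (f F : ℝ → ℝ) (u : E n → ℝ), Stable (Metric.ball 0 1) f F u →
      (u 0) ^ 2 ≤ C * ∫ x in Metric.ball (0 : E n) 1, (u x ^ 2 + gsq u x) := by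
  have hn1 : 1 ≤ n := by omega
  obtain ⟨Cr, hCr, cr, hcr, hrep⟩ := hR
  obtain ⟨C₀, hC₀, c₀, hc₀, hmon⟩ := hmon
  obtain ⟨B, hB2, δ, hδ, hA⟩ := hA
  obtain ⟨K, hK0, -, -, hK3⟩ := exists_K
  obtain ⟨q, hq0, hq1, C₁, hC₁, hdec⟩ := decay_step hC₀ hc₀ hδ
  have hBr : (2 : ℝ) ≤ B := by exact_mod_cast hB2
  set r : ℝ := Real.sqrt q with hr
  have hr0 : 0 ≤ r := Real.sqrt_nonneg _
  have hr1 : r < 1 := by
    rw [hr, Real.sqrt_lt' one_pos]; simpa using hq1
  -- bound for `d₀ + a₀`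
  set L : ℝ := (1 + C₀ + c₀) / c₀ * (K * Real.exp (2 * ((n : ℝ) - 2)) +
    Real.exp ((1 + B) * ((n : ℝ) - 2))) + K * Real.exp (2 * ((n : ℝ) - 2)) with hL
  have hL0 : 0 ≤ L := by positivity
  set P : ℝ := (B / (1 - r)) ^ 2 * (Cr * (C₁ * L)) with hP
  have h1r : 0 < 1 - r := by linarith
  have hP0 : 0 ≤ P := by positivity
  refine ⟨2 * (Cr + P) / cr ^ 2, ?_⟩
  intro f F u hst
  have hu := hst.smooth
  set I₁ : ℝ := ∫ x in ball (0 : E n) 1, gsq u x with hI₁
  set I₀ : ℝ := ∫ x in ball (0 : E n) 1, u x ^ 2 with hI₀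
  have hI₁0 : 0 ≤ I₁ := integral_nonneg fun x => gsq_nonneg u x
  have hI₀0 : 0 ≤ I₀ := integral_nonneg fun x => sq_nonneg _
  set s : ℕ → ℝ := fun i => -2 - i * B with hs
  set a : ℕ → ℝ := fun i => JJ u (s i + 1) with ha
  set d : ℕ → ℝ := fun i => dd u (s i) with hd
  have hss : ∀ i, s (i + 1) = s i - B := fun i => by simp only [hs]; push_cast; ring
  have hsneg : ∀ i, s i ≤ -2 := fun i => by
    have : (0 : ℝ) ≤ i := Nat.cast_nonneg i
    simp only [hs]; nlinarith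
  have ha0 : ∀ i, 0 ≤ a i := fun i => JJ_nonneg u _
  have hd0 : ∀ i, 0 ≤ d i := fun i => dd_nonneg hu _
  have hAi : ∀ i, a i - a (i + 1) = RI u (s (i + 1) + 1) (s i + 1) := fun i => by
    simp only [ha]
    rw [JJ_add hn1 hu (a := s (i + 1) + 1) (b := s i + 1) (by rw [hss]; linarith)]
    ring
  have hAi2 : ∀ i, a i - a (i + 2) = RI u (s i - 2 * B + 1) (s i + 1) := fun i => by
    have e : s (i + 2) + 1 = s i - 2 * B + 1 := by
      rw [show i + 2 = (i + 1) + 1 from rfl, hss, hss]; ring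
    simp only [ha]
    rw [JJ_add hn1 hu (a := s (i + 2) + 1) (b := s i + 1) (by rw [e]; linarith), e]
    ring
  have hmono : ∀ i, a (i + 1) ≤ a i := fun i => by
    have := RI_nonneg hu (s (i + 1) + 1) (s i + 1)
    linarith [hAi i]
  have h1 : ∀ i, c₀ * a i ≤ d i + (C₀ + c₀) * (a i - a (i + 1)) := by
    intro i
    have e1 := rep_a hn1 hmon hC₀ hst (s := s i) (by linarith [hsneg i])
    have e2 : RI u (s i) (s i + 1) ≤ a i - a (i + 1) := by
      rw [hAi]; exact RI_mono hn1 hu (by rw [hss]; linarith) le_rfl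
    have e3 : a i = JJ u (s i) + RI u (s i) (s i + 1) := JJ_add hn1 hu (by linarith)
    have e4 : C₀ * RI u (s i) (s i + 1) ≤ C₀ * (a i - a (i + 1)) :=
      mul_le_mul_of_nonneg_left e2 hC₀.le
    have e5 : c₀ * RI u (s i) (s i + 1) ≤ c₀ * (a i - a (i + 1)) :=
      mul_le_mul_of_nonneg_left e2 hc₀.le
    have e6 : c₀ * a i = c₀ * JJ u (s i) + c₀ * RI u (s i) (s i + 1) := by rw [e3]; ring
    have e7 : d i = dd u (s i) := rfl
    linarith
  have h2 : ∀ i, d (i + 1) ≤ d i + C₀ * (a i - a (i + 2)) := by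
    intro i
    have e1 := hmon f F u hst (s (i + 1)) (s i) (by rw [hss]; linarith) (by linarith [hsneg i])
    have e2 : RI u (s i) (s i + 1) ≤ a i - a (i + 1) := by
      rw [hAi]; exact RI_mono hn1 hu (by rw [hss]; linarith) le_rfl
    have e3 : RI u (s (i + 1)) (s (i + 1) + 1) ≤ a (i + 1) - a (i + 2) := by
      rw [hAi (i + 1)]; exact RI_mono hn1 hu (by rw [hss (i + 1)]; linarith) le_rfl
    have e4 := mul_nonneg hc₀.le (RI_nonneg hu (s (i + 1) + 1) (s i))
    have e5 : C₀ * (RI u (s (i + 1)) (s (i + 1) + 1) + RI u (s i) (s i + 1))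
        ≤ C₀ * (a i - a (i + 2)) := mul_le_mul_of_nonneg_left (by linarith) hC₀.le
    have e7 : d i = dd u (s i) := rfl
    have e8 : d (i + 1) = dd u (s (i + 1)) := rfl
    linarith
  have h3 : ∀ i, a i - a (i + 2) ≤ δ * d i → d (i + 1) ≤ d i / 2 := by
    intro i hi
    rw [hAi2] at hi
    have := hA f F u hst (s i) (by linarith [hsneg i]) hi
    rwa [← hss] at this
  have hai := hdec a d ha0 hd0 hmono h1 h2 h3
  have hL1 : d 0 + a 0 ≤ L * I₁ := by
    have e1 := h1 0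
    have e2 : d 0 ≤ K * Real.exp (2 * ((n : ℝ) - 2)) * I₁ := by
      have := dd_bound (by omega) hK3 hu (s := s 0) (by linarith [hsneg 0])
      have e0 : -(s 0) = 2 := by simp [hs]
      rw [e0] at this
      exact this
    have e3 : a 0 - a 1 ≤ Real.exp ((1 + B) * ((n : ℝ) - 2)) * I₁ := by
      rw [hAi 0]
      have := RI_bound (by omega) hu (a := s (0 + 1) + 1) (b := s 0 + 1) (by linarith [hsneg 0])
      refine this.trans (le_of_eq ?_)
      congr 2
      simp only [hs]; push_cast; ring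
    have e4 : a 0 ≤ (1 + C₀ + c₀) / c₀ * (d 0 + (a 0 - a 1)) := by
      rw [div_mul_eq_mul_div, le_div_iff₀ hc₀]
      have f1 := hd0 0
      have f2 : 0 ≤ a 0 - a 1 := by linarith [hmono 0]
      nlinarith [mul_nonneg (add_pos hC₀ hc₀).le f1]
    have e5 : (1 + C₀ + c₀) / c₀ * (d 0 + (a 0 - a 1)) ≤ (1 + C₀ + c₀) / c₀ *
        (K * Real.exp (2 * ((n : ℝ) - 2)) * I₁ + Real.exp ((1 + B) * ((n : ℝ) - 2)) * I₁) :=
      mul_le_mul_of_nonneg_left (add_le_add e2 e3) (by positivity)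
    rw [hL]
    linarith
  obtain ⟨U, hUd, hUb, hUl, hU2⟩ := hrep u hu
  -- increments
  have hinc : ∀ i, |U (s i) - U (s (i + 1))| ≤ B * Real.sqrt (Cr * (C₁ * (L * I₁))) * r ^ i := by
    intro i
    have hb : ∀ t ∈ Icc (s (i + 1)) (s i), ‖deriv U t‖ ≤ Real.sqrt (Cr * (C₁ * (L * I₁))) * r ^ i := by
      intro t ht
      rw [Real.norm_eq_abs]
      have e1 : RI u t (t + 1) ≤ q ^ i * (C₁ * (L * I₁)) := by
        refine (RI_le_JJ hn1 hu (by linarith)).trans ?_
        refine (JJ_mono hn1 hu (show t + 1 ≤ s i + 1 by linarith [ht.2])).trans ?_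
        refine (hai i).trans ?_
        exact mul_le_mul_of_nonneg_left (mul_le_mul_of_nonneg_left hL1 hC₁) (pow_nonneg hq0 i)
      have e2 := (hUb t).trans (mul_le_mul_of_nonneg_left e1 hCr.le)
      have e3 : (Real.sqrt (Cr * (C₁ * (L * I₁))) * r ^ i) ^ 2 = Cr * (q ^ i * (C₁ * (L * I₁))) := by
        rw [mul_pow, Real.sq_sqrt (by positivity), ← pow_mul, mul_comm i 2, pow_mul, hr,
          Real.sq_sqrt hq0]
        ring
      refine abs_le_of_sq_le_sq ?_ (by positivity)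
      rw [e3]; exact e2
    have hle : s (i + 1) ≤ s i := by rw [hss]; linarith
    have := (convex_Icc (s (i + 1)) (s i)).norm_image_sub_le_of_norm_deriv_le
      (fun t _ => hUd t) hb (left_mem_Icc.2 hle) (right_mem_Icc.2 hle)
    rw [Real.norm_eq_abs, Real.norm_eq_abs] at this
    have e4 : |s i - s (i + 1)| = B := by
      rw [hss, sub_sub_cancel, abs_of_nonneg (by linarith)]
    rw [e4] at this
    linarith
  have hsum : ∀ N : ℕ, |U (s 0) - U (s N)| ≤ B * Real.sqrt (Cr * (C₁ * (L * I₁))) / (1 - r) := by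
    intro N
    have e1 : U (s 0) - U (s N) = ∑ i ∈ Finset.range N, (U (s i) - U (s (i + 1))) := by
      rw [Finset.sum_range_sub' (fun i => U (s i))]
    rw [e1]
    refine (Finset.abs_sum_le_sum_abs _ _).trans ?_
    refine (Finset.sum_le_sum fun i _ => hinc i).trans ?_
    rw [← Finset.mul_sum, div_eq_mul_inv]
    refine mul_le_mul_of_nonneg_left ?_ (by positivity)
    rw [← tsum_geometric_of_lt_one hr0 hr1]
    exact (summable_geometric_of_lt_one hr0 hr1).sum_le_tsum _ (fun i _ => pow_nonneg hr0 i)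
  have hstend : Tendsto s atTop atBot := by
    have e1 : Tendsto (fun i : ℕ => (i : ℝ) * B) atTop atTop :=
      tendsto_natCast_atTop_atTop.atTop_mul_const (by linarith)
    have e2 : Tendsto (fun i : ℕ => -((i : ℝ) * B)) atTop atBot := tendsto_neg_atTop_atBot.comp e1
    have e3 := tendsto_atBot_add_const_left atTop (-2 : ℝ) e2
    exact e3.congr fun i => by simp only [hs]; ring
  have hlim : |U (s 0) - cr * u 0| ≤ B * Real.sqrt (Cr * (C₁ * (L * I₁))) / (1 - r) := by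
    have e1 : Tendsto (fun N => |U (s 0) - U (s N)|) atTop (𝓝 |U (s 0) - cr * u 0|) :=
      ((hUl.comp hstend).const_sub _).abs
    exact le_of_tendsto e1 (Eventually.of_forall hsum)
  have hs0 : s 0 = -2 := by simp [hs]
  rw [hs0] at hlim
  have hsq : (U (-2) - cr * u 0) ^ 2 ≤ P * I₁ := by
    rw [← sq_abs]
    have e1 := pow_le_pow_left₀ (abs_nonneg _) hlim 2
    refine e1.trans (le_of_eq ?_)
    rw [div_pow, mul_pow, Real.sq_sqrt (by positivity), hP, div_pow]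
    ring
  have hfin : cr ^ 2 * u 0 ^ 2 ≤ 2 * (Cr + P) * (I₀ + I₁) := by
    have e1 : cr ^ 2 * u 0 ^ 2 ≤ 2 * U (-2) ^ 2 + 2 * (U (-2) - cr * u 0) ^ 2 := by
      nlinarith [sq_nonneg (2 * U (-2) - cr * u 0)]
    have e2 : 0 ≤ Cr * I₁ := mul_nonneg hCr.le hI₁0
    have e3 : 0 ≤ P * I₀ := mul_nonneg hP0 hI₀0
    nlinarith
  have hsplit : ∫ x in Metric.ball (0 : E n) 1, (u x ^ 2 + gsq u x) = I₀ + I₁ := by
    rw [hI₀, hI₁, ← integral_add]
    · exact ((hu.continuous.pow 2).continuousOn.integrableOn_compact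
        (isCompact_closedBall (0 : E n) 1)).mono_set ball_subset_closedBall
    · exact ((continuous_gsq hu).continuousOn.integrableOn_compact
        (isCompact_closedBall (0 : E n) 1)).mono_set ball_subset_closedBall
  rw [hsplit, div_mul_eq_mul_div, le_div_iff₀ (by positivity)]
  linarith

end Pool.Agent.H65.Stab
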