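import Pool.Agent.H65.Stab.Scale

set_option autoImplicit false

/-!
M12, second part: Lemma A.
-/

open MeasureTheory Set Filter Topology Metric
open scoped ContDiff

namespace Pool.Agent.H65.Stab

open Pool.Agent.H94.Stab

variable {n : ℕ}

lemma zeta_shift_cont (s : ℝ) : Continuous fun t => zeta (t - s) :=
  zeta_contDiff.continuous.comp (by fun_prop)

lemma zeta_shift_supp (s : ℝ) : HasCompactSupport fun t => zeta (t - s) := by
  refine HasCompactSupport.intro (isCompact_Icc (a := s) (b := s + 1)) ?_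
  intro t ht
  rw [mem_Icc, not_and_or, not_le, not_le] at ht
  rcases ht with h | h
  · exact zeta_zero_le (by linarith)
  · exact zeta_zero_ge (by linarith)

lemma dd_nonneg {u : E n → ℝ} (hu : ContDiff ℝ ∞ u) (s : ℝ) : 0 ≤ dd u s := by
  unfold dd
  rw [DD_eq hu (zeta_shift_cont s).measurable]
  exact integral_nonneg fun t => zeta_nonneg _

lemma RI_nonneg {u : E n → ℝ} (hu : ContDiff ℝ ∞ u) (a b : ℝ) : 0 ≤ RI u a b := by
  rw [RI_eq hu]; exact measureReal_nonneg

lemma RI_mono (hn : 1 ≤ n) {u : E n → ℝ} (hu : ContDiff ℝ ∞ u) {a b a' b' : ℝ} (ha : a' ≤ a)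
    (hb : b ≤ b') : RI u a b ≤ RI u a' b' := by
  rw [RI_eq hu, RI_eq hu]
  refine measureReal_mono (Ico_subset_Ico ha hb) ?_
  exact ((measure_mono (fun x hx => (le_of_lt hx.2 : x ≤ b'))).trans_lt (mR_lt_top hn hu b')).ne

/-- the constant bounding the right hand side. -/
noncomputable def CE (K M : ℝ) : ℝ := (2 * K + M) ^ 2 + 6 * (2 * K + M)

lemma ineq_h (hS : StabIneq n) (hn6 : 6 ≤ n) (hn9 : n ≤ 9) {K : ℝ} (hK0 : 0 ≤ K)
    (hK1 : ∀ t, |deriv sg t| ≤ K) (hK2 : ∀ t, |deriv cg t| ≤ K) {f F : ℝ → ℝ} {u : E n → ℝ}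
    (hst : Stable (ball 0 1) f F u) {σ κ : ℝ} (hκ : 0 ≤ κ) (hσ : σ + κ + 3 < 0) {h : ℝ → ℝ}
    (hh : ContDiff ℝ ∞ h) (hsupp : ∀ t, κ ≤ |t| → h t = 0) {M : ℝ} (hM0 : 0 ≤ M)
    (hb : ∀ t, |h t| ≤ 1) (hM : ∀ t, |deriv h t| ≤ M) :
    DD u (fun t => deriv (fun τ => 2 * h τ + h τ ^ 2) (t - σ)) ≤
      dd u (σ + κ + 2) - dd u (σ - κ - 2) + CE K M * RI u (σ - κ - 2) (σ + κ + 3) := by
  have hn1 : 1 ≤ n := by omega
  have h6 : (6 : ℝ) ≤ n := by exact_mod_cast hn6
  have h9 : (n : ℝ) ≤ 9 := by exact_mod_cast hn9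
  have hu := hst.smooth
  have hmD := mD_lt_top hn1 hu
  have hmR := mR_lt_top hn1 hu
  set a := σ - κ - 2 with ha
  set b := σ + κ + 2 with hb'
  have hab : a + 1 ≤ b := by linarith
  have hdh : Continuous (deriv h) := hh.continuous_deriv (by simp)
  have hdh0 : ∀ t, κ ≤ |t| → deriv h t = 0 := by
    intro t ht
    rcases le_abs.1 ht with h1 | h1
    · exact deriv_zero_Ici hdh (fun s hs => hsupp s ((le_abs.2 (Or.inl hs)))) h1
    · exact deriv_zero_Iic hdh (a := -κ)
        (fun s hs => hsupp s (le_abs.2 (Or.inr (by linarith)))) (by linarith)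
  set hσf : ℝ → ℝ := fun t => h (t - σ) with hhσ
  have hhσs : ContDiff ℝ ∞ hσf := hh.comp (contDiff_id.sub contDiff_const)
  have hdhσ : ∀ t, HasDerivAt hσf (deriv h (t - σ)) t := fun t =>
    ((hh.differentiable (by simp) (t - σ)).hasDerivAt).comp_sub_const t σ
  set g : ℝ → ℝ := fun t => plat a b t + hσf t with hg
  have hgs : ContDiff ℝ ∞ g := (plat_contDiff a b).add hhσs
  have hgd : ∀ t, deriv g t = deriv (plat a b) t + deriv h (t - σ) := fun t =>
    (((plat_contDiff a b).differentiable (by simp) t).hasDerivAt.add (hdhσ t)).deriv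
  have hmid : ∀ t, |t - σ| < κ → plat a b t = 1 ∧ deriv (plat a b) t = 0 := by
    intro t ht
    rw [abs_lt] at ht
    refine ⟨plat_one (by linarith) (by linarith), ?_⟩
    rw [deriv_plat, dsg_zero_ge (by linarith), dcg_zero_le (by linarith)]; ring
  have hg0 : ∀ t, t ≤ a ∨ b + 1 ≤ t → g t = 0 := by
    intro t ht
    have h1 : plat a b t = 0 := plat_zero ht
    have h2 : hσf t = 0 := by
      apply hsupp
      rcases ht with h3 | h3
      · exact le_abs.2 (Or.inr (by linarith))
      · exact le_abs.2 (Or.inl (by linarith))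
    simp only [hg, h1, h2, add_zero]
  have hdg0 : ∀ t, t ≤ a ∨ b + 1 ≤ t → deriv g t = 0 := by
    intro t ht
    have h1 : deriv (plat a b) t = 0 := by
      rw [deriv_plat]
      rcases ht with h | h
      · rw [sg_zero (by linarith), dsg_zero_le (by linarith)]; ring
      · rw [cg_zero (by linarith), dcg_zero_ge (by linarith)]; ring
    have h2 : deriv h (t - σ) = 0 := by
      apply hdh0
      rcases ht with h3 | h3
      · exact le_abs.2 (Or.inr (by linarith))
      · exact le_abs.2 (Or.inl (by linarith))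
    rw [hgd, h1, h2, add_zero]
  have hgts : tsupport g ⊆ Icc a (b + 1) := by
    refine closure_minimal ?_ isClosed_Icc
    intro t ht
    by_contra hcon
    rw [mem_Icc, not_and_or, not_le, not_le] at hcon
    exact ht (hg0 t (hcon.imp le_of_lt le_of_lt))
  have hgB : Bump1 g := ⟨hgs, HasCompactSupport.of_support_subset_isCompact isCompact_Icc
    (subset_closure.trans hgts)⟩
  have hineq := hS (ball 0 1) f F u hst g hgB (sub_ball (fun t ht => by
    have := (hgts ht).2
    exact lt_of_le_of_lt this (by linarith)))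
  -- left side
  have hcomp : ∀ t, deriv (fun τ => 2 * h τ + h τ ^ 2) t = 2 * deriv h t + 2 * h t * deriv h t := by
    intro t
    have h1 := (hh.differentiable (by simp) t).hasDerivAt
    have h2 := (h1.const_mul 2).fun_add (h1.fun_pow 2)
    rw [h2.deriv]; simp
  have hL : (fun t => 2 * g t * deriv g t) = fun t => (zeta (t - a) - zeta (t - b))
      + deriv (fun τ => 2 * h τ + h τ ^ 2) (t - σ) := by
    funext t
    rw [hcomp, hgd, ← plat_dplat hab t]
    rcases lt_or_ge |t - σ| κ with h1 | h1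
    · obtain ⟨e1, e2⟩ := hmid t h1
      simp only [hg, hhσ, e1, e2]
      ring
    · have e1 : h (t - σ) = 0 := hsupp _ h1
      have e2 : deriv h (t - σ) = 0 := hdh0 _ h1
      simp only [hg, hhσ, e1, e2]
      ring
  have hcc : Continuous fun t => deriv (fun τ => 2 * h τ + h τ ^ 2) (t - σ) := by
    have : (fun t => deriv (fun τ => 2 * h τ + h τ ^ 2) (t - σ))
        = fun t => 2 * deriv h (t - σ) + 2 * h (t - σ) * deriv h (t - σ) := by
      funext t; rw [hcomp]
    rw [this]
    have hc : Continuous h := hh.continuous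
    fun_prop
  have hcs : HasCompactSupport fun t => deriv (fun τ => 2 * h τ + h τ ^ 2) (t - σ) := by
    refine HasCompactSupport.intro (isCompact_Icc (a := a) (b := b + 1)) ?_
    intro t ht
    rw [mem_Icc, not_and_or, not_le, not_le] at ht
    rw [hcomp, hdh0]
    · ring
    · rcases ht with h3 | h3
      · exact le_abs.2 (Or.inr (by linarith))
      · exact le_abs.2 (Or.inl (by linarith))
  have hD : DD u (fun t => 2 * g t * deriv g t) = (dd u a - dd u b)
      + DD u (fun t => deriv (fun τ => 2 * h τ + h τ ^ 2) (t - σ)) := by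
    rw [hL]
    unfold dd
    have m1 : Measurable (fun t => (zeta (t - a) - zeta (t - b))
      + deriv (fun τ => 2 * h τ + h τ ^ 2) (t - σ)) :=
      (((zeta_shift_cont a).sub (zeta_shift_cont b)).add hcc).measurable
    rw [DD_eq hu m1, DD_eq hu (zeta_shift_cont a).measurable,
      DD_eq hu (zeta_shift_cont b).measurable, DD_eq hu hcc.measurable]
    have i1 := bump_integrable hmD (zeta_shift_cont a) (zeta_shift_supp a)
    have i2 := bump_integrable hmD (zeta_shift_cont b) (zeta_shift_supp b)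
    have i3 := bump_integrable hmD hcc hcs
    have i12 : Integrable (fun t => zeta (t - a) - zeta (t - b)) (mD u) := i1.sub i2
    rw [integral_add i12 i3, integral_sub i1 i2]
  -- right side
  set ER : ℝ → ℝ := fun t => deriv g t ^ 2 + (6 - (n : ℝ)) * g t * deriv g t
        - ((n : ℝ) - 2) / 2 * (4 - ((n : ℝ) - 2) / 2) * g t ^ 2 with hER
  have hgc : Continuous g := hgs.continuous
  have hdgc : Continuous (deriv g) := hgs.continuous_deriv (by simp)
  have hERc : Continuous ER := by simp only [hER]; fun_prop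
  have hER0 : ∀ t, t ≤ a ∨ b + 1 ≤ t → ER t = 0 := by
    intro t ht
    have e1 := hdg0 t ht
    have e2 := hg0 t ht
    simp only [hER, e1, e2]; ring
  have hdgb : ∀ t, |deriv g t| ≤ 2 * K + M := by
    intro t
    have b0 : |deriv (plat a b) t| ≤ 2 * K := by
      rw [deriv_plat]
      have a1 := hK1 (t - a)
      have a2 := hK2 (t - b)
      have b1 : |deriv sg (t - a) * cg (t - b)| ≤ K := by
        rw [abs_mul, abs_of_nonneg (cg_nonneg _)]
        nlinarith [cg_le_one (t - b), cg_nonneg (t - b), abs_nonneg (deriv sg (t - a))]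
      have b2 : |sg (t - a) * deriv cg (t - b)| ≤ K := by
        rw [abs_mul, abs_of_nonneg (sg_nonneg _)]
        nlinarith [sg_le_one (t - a), sg_nonneg (t - a), abs_nonneg (deriv cg (t - b))]
      exact (abs_add_le _ _).trans (by linarith)
    rw [hgd]
    have := hM (t - σ)
    exact (abs_add_le _ _).trans (by linarith)
  have hgb : ∀ t, |g t| ≤ 2 := by
    intro t
    have e2 := plat_nonneg a b t
    have e3 := plat_le_one a b t
    have e4 : |plat a b t| ≤ 1 := by rw [abs_of_nonneg e2]; exact e3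
    have e5 := hb (t - σ)
    exact (abs_add_le _ _).trans (by simp only [hhσ]; linarith)
  have hCE0 : 0 ≤ CE K M := by unfold CE; positivity
  have hκ0 : 0 ≤ ((n : ℝ) - 2) / 2 * (4 - ((n : ℝ) - 2) / 2) := by nlinarith
  have hERb : ∀ t, ER t ≤ CE K M := by
    intro t
    have e1 := hdgb t
    have e4 : deriv g t ^ 2 ≤ (2 * K + M) ^ 2 := by
      rw [← sq_abs]
      exact pow_le_pow_left₀ (abs_nonneg _) e1 2
    have e5 : (6 - (n : ℝ)) * g t * deriv g t ≤ 6 * (2 * K + M) := by
      have : |(6 - (n : ℝ)) * g t * deriv g t| ≤ 3 * 2 * (2 * K + M) := by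
        rw [abs_mul, abs_mul]
        refine mul_le_mul (mul_le_mul ?_ (hgb t) (abs_nonneg _) (by norm_num)) e1 (abs_nonneg _) (by norm_num)
        rw [abs_le]; constructor <;> linarith
      linarith [le_abs_self ((6 - (n : ℝ)) * g t * deriv g t)]
    have e6 : 0 ≤ ((n : ℝ) - 2) / 2 * (4 - ((n : ℝ) - 2) / 2) * g t ^ 2 := by positivity
    simp only [hER]
    unfold CE
    linarith
  have hpt : ∀ t, ER t ≤ (Ico a (b + 1)).indicator (fun _ => CE K M) t := by
    intro t
    by_cases ht : t ∈ Ico a (b + 1)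
    · rw [indicator_of_mem ht]; exact hERb t
    · rw [indicator_of_notMem ht]
      rw [mem_Ico, not_and_or, not_le, not_lt] at ht
      exact (hER0 t (ht.imp le_of_lt id)).le
  have hERs : HasCompactSupport ER := by
    refine HasCompactSupport.intro (isCompact_Icc (a := a) (b := b + 1)) ?_
    intro t ht
    rw [mem_Icc, not_and_or, not_le, not_le] at ht
    exact hER0 t (ht.imp le_of_lt le_of_lt)
  have hRR : RR u ER ≤ CE K M * RI u a (b + 1) := by
    rw [RR_eq hu hERc.measurable]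
    refine (integral_mono (bump_integrable hmR hERc hERs)
      (indicator_Ico_integrable hmR a (b + 1) (CE K M)) hpt).trans ?_
    rw [integral_indicator measurableSet_Ico, RI_eq hu]
    simp only [integral_const, measureReal_restrict_apply_univ, smul_eq_mul]
    exact (mul_comm _ _).le
  have hb1 : b + 1 = σ + κ + 3 := by rw [hb']; ring
  rw [hD] at hineq
  rw [hb1] at hRR
  linarith

/-- one step of the contradiction argument. -/
theorem good_of_bad (hS : StabIneq n) (hn6 : 6 ≤ n) (hn9 : n ≤ 9) {K : ℝ} (hK0 : 0 ≤ K)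
    (hK1 : ∀ t, |deriv sg t| ≤ K) (hK2 : ∀ t, |deriv cg t| ≤ K) {C₀ c₀ : ℝ} (hC₀ : 0 < C₀)
    (hc₀ : 0 < c₀)
    (hmon : ∀ (f F : ℝ → ℝ) (u : E n → ℝ), Stable (ball 0 1) f F u →
      ∀ s₀ s₁ : ℝ, s₀ + 1 ≤ s₁ → s₁ + 1 < 0 →
        dd u s₀ + c₀ * RI u (s₀ + 1) s₁ ≤
          dd u s₁ + C₀ * (RI u s₀ (s₀ + 1) + RI u s₁ (s₁ + 1)))
    (k : ℕ) {δ : ℝ} (hδ : 0 < δ) (hδC : C₀ * δ ≤ 1 / 8) {f F : ℝ → ℝ} {u : E n → ℝ}
    (hst : Stable (ball 0 1) f F u) {s B : ℝ} (hs : s + 1 < 0)
    (hB : B = ((k : ℝ) + 1) * (2 * k + 4) + 4)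
    (hRI : RI u (s - 2 * B + 1) (s + 1) ≤ δ * dd u s) (hgt : dd u s / 2 < dd u (s - B)) :
    ∃ (f' F' : ℝ → ℝ) (v : E n → ℝ), Stable (Ann n k) f' F' v ∧ DD v zeta = 1 ∧
      (∀ ψ : ℝ → ℝ, Continuous ψ → (∀ t, (k : ℝ) ≤ |t| → ψ t = 0) → ∀ M, (∀ t, |ψ t| ≤ M) →
        |RR v ψ| ≤ M * (4 * δ)) ∧
      (∀ h : ℝ → ℝ, ContDiff ℝ ∞ h → (∀ t, (k : ℝ) ≤ |t| → h t = 0) → (∀ t, |h t| ≤ 1) →
        ∀ M, 0 ≤ M → (∀ t, |deriv h t| ≤ M) →
        DD v (deriv (fun τ => 2 * h τ + h τ ^ 2)) ≤ 8 / ((k : ℝ) + 1) + CE K M * (4 * δ)) := by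
  have hn1 : 1 ≤ n := by omega
  have hu := hst.smooth
  have hk0 : (0 : ℝ) ≤ k := Nat.cast_nonneg k
  have hB4 : 8 ≤ B := by rw [hB]; nlinarith
  have hdn := dd_nonneg hu
  have hRIle : ∀ x y : ℝ, s - 2 * B + 1 ≤ x → y ≤ s + 1 → RI u x y ≤ δ * dd u s :=
    fun x y hx hy => (RI_mono hn1 hu hx hy).trans hRI
  have hds := hdn s
  have hCd : C₀ * (δ * dd u s) ≤ dd u s / 8 := by
    have := mul_le_mul_of_nonneg_right hδC hds
    nlinarith
  have hup : ∀ s', s - B ≤ s' → s' + 1 ≤ s → dd u s' ≤ 2 * dd u s := by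
    intro s' h1 h2
    have h3 := hmon f F u hst s' s h2 hs
    have h4 := hRIle s' (s' + 1) (by linarith) (by linarith)
    have h5 := hRIle s (s + 1) (by linarith) le_rfl
    have h6 := mul_nonneg hc₀.le (RI_nonneg hu (s' + 1) s)
    have h7 : C₀ * (RI u s' (s' + 1) + RI u s (s + 1)) ≤ C₀ * (δ * dd u s + δ * dd u s) :=
      mul_le_mul_of_nonneg_left (by linarith) hC₀.le
    nlinarith
  have hpos : 0 < dd u s := by
    rcases hds.eq_or_lt with h | h
    · have := hup (s - B) le_rfl (by linarith)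
      rw [← h] at this hgt
      linarith
    · exact h
  have hlow : ∀ s', s - B + 1 ≤ s' → s' + 1 < 0 → s' ≤ s → dd u s / 4 ≤ dd u s' := by
    intro s' h1 h2 h2'
    have h3 := hmon f F u hst (s - B) s' h1 h2
    have h4 := hRIle (s - B) (s - B + 1) (by linarith) (by linarith)
    have h5 := hRIle s' (s' + 1) (by linarith) (by linarith)
    have h6 := mul_nonneg hc₀.le (RI_nonneg hu (s - B + 1) s')
    have h7 : C₀ * (RI u (s - B) (s - B + 1) + RI u s' (s' + 1)) ≤ C₀ * (δ * dd u s + δ * dd u s) :=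
      mul_le_mul_of_nonneg_left (by linarith) hC₀.le
    nlinarith
  set a : ℕ → ℝ := fun j => s - 2 - j * (2 * k + 4) with ha
  have haj : ∀ j : ℕ, j ≤ k + 1 → s - B + 2 ≤ a j ∧ a j ≤ s - 2 := by
    intro j hj
    have hj' : (j : ℝ) ≤ (k : ℝ) + 1 := by exact_mod_cast hj
    have hj0 : (0 : ℝ) ≤ j := Nat.cast_nonneg j
    simp only [ha]
    constructor
    · rw [hB]; nlinarith
    · nlinarith
  obtain ⟨j, hj, hjle⟩ : ∃ j : ℕ, j < k + 1 ∧ dd u (a j) - dd u (a (j + 1)) ≤ 2 * dd u s / ((k : ℝ) + 1) := by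
    by_contra hcon
    push Not at hcon
    have h1 : ∑ j ∈ Finset.range (k + 1), (2 * dd u s / ((k : ℝ) + 1))
        < ∑ j ∈ Finset.range (k + 1), (dd u (a j) - dd u (a (j + 1))) := by
      refine Finset.sum_lt_sum_of_nonempty (by simp) fun j hj => hcon j (Finset.mem_range.1 hj)
    rw [Finset.sum_range_sub', Finset.sum_const, Finset.card_range, nsmul_eq_mul] at h1
    have h2 : ((k + 1 : ℕ) : ℝ) * (2 * dd u s / ((k : ℝ) + 1)) = 2 * dd u s := by
      push_cast; field_simp
    rw [h2] at h1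
    have h3 := hup (a 0) (by have := (haj 0 (by omega)).1; linarith) (by have := (haj 0 (by omega)).2; linarith)
    have h4 := hdn (a (k + 1))
    linarith
  obtain ⟨hja1, hja2⟩ := haj j (by omega)
  obtain ⟨hjb1, hjb2⟩ := haj (j + 1) (by omega)
  set σ : ℝ := a j - (k + 2) with hσ
  have hstep : a (j + 1) = σ - k - 2 := by
    simp only [hσ, ha]; push_cast; ring
  have hstep2 : a j = σ + k + 2 := by simp only [hσ]; ring
  have hσlow : dd u s / 4 ≤ dd u σ := hlow σ (by linarith) (by linarith) (by linarith)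
  have hσpos : 0 < dd u σ := by linarith
  set r : ℝ := Real.exp σ with hr
  have hr0 : 0 < r := Real.exp_pos σ
  have hlr : Real.log r = σ := Real.log_exp σ
  set μ : ℝ := 1 / Real.sqrt (dd u σ) with hμ
  have hμ0 : 0 < μ := by positivity
  have hμ2 : μ ^ 2 = 1 / dd u σ := by
    rw [hμ, div_pow, Real.sq_sqrt hσpos.le]; simp
  have hμle : μ ^ 2 ≤ 4 / dd u s := by
    rw [hμ2, div_le_div_iff₀ hσpos hpos]; linarith
  have hud : Differentiable ℝ u := hu.differentiable (by simp)
  have hopen : IsOpen (Ann n (k : ℝ)) := by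
    unfold Ann
    exact (isOpen_lt continuous_const continuous_norm).inter (isOpen_lt continuous_norm continuous_const)
  refine ⟨_, _, scl μ r u, stable_scl hn1 hst hμ0 hr0 hopen ?_, ?_, ?_, ?_⟩
  · intro x hx
    rw [mem_ball_zero_iff, norm_smul, Real.norm_of_nonneg hr0.le]
    calc r * ‖x‖ < r * Real.exp k := mul_lt_mul_of_pos_left hx.2 hr0
      _ = Real.exp (σ + k) := by rw [hr, Real.exp_add]
      _ < 1 := by rw [Real.exp_lt_one_iff]; linarith
  · rw [DD_scl hn1 hr0 hud, hlr]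
    have : DD u (fun t => zeta (t - σ)) = dd u σ := rfl
    rw [this, hμ2]; field_simp
  · intro ψ hψ hψ0 M hM
    rw [RR_scl hn1 hr0 hud, hlr, abs_mul, abs_of_nonneg (sq_nonneg μ)]
    have hM0 : 0 ≤ M := (abs_nonneg _).trans (hM 0)
    have hψm : Continuous fun t => ψ (t - σ) := hψ.comp (by fun_prop)
    have h1 : |RR u (fun t => ψ (t - σ))| ≤ M * RI u (σ - k) (σ + k) := by
      rw [RR_eq hu hψm.measurable, RI_eq hu]
      refine (abs_integral_le_integral_abs).trans ?_
      have i1 := indicator_Ico_integrable (mR_lt_top hn1 hu) (σ - k) (σ + k) M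
      have hbd : ∀ t, |ψ (t - σ)| ≤ (Ico (σ - k) (σ + k)).indicator (fun _ => M) t := by
        intro t
        by_cases ht : t ∈ Ico (σ - (k : ℝ)) (σ + k)
        · rw [indicator_of_mem ht]; exact hM _
        · rw [indicator_of_notMem ht, hψ0, abs_zero]
          rw [mem_Ico, not_and_or, not_le, not_lt] at ht
          rcases ht with h | h
          · exact le_abs.2 (Or.inr (by linarith))
          · exact le_abs.2 (Or.inl (by linarith))
      refine (integral_mono_of_nonneg (Eventually.of_forall fun t => abs_nonneg _) i1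
        (Eventually.of_forall hbd)).trans ?_
      rw [integral_indicator measurableSet_Ico]
      simp only [integral_const, measureReal_restrict_apply_univ, smul_eq_mul]
      exact (mul_comm _ _).le
    have h2 := hRIle (σ - k) (σ + k) (by linarith) (by linarith)
    calc μ ^ 2 * |RR u (fun t => ψ (t - σ))| ≤ (4 / dd u s) * (M * (δ * dd u s)) := by
          refine mul_le_mul hμle (h1.trans (mul_le_mul_of_nonneg_left h2 hM0)) (abs_nonneg _) (by positivity)
      _ = M * (4 * δ) := by field_simp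
  · intro h hh hh0 hb M hM0 hM
    rw [DD_scl hn1 hr0 hud, hlr]
    have h1 := ineq_h hS hn6 hn9 hK0 hK1 hK2 hst (σ := σ) (κ := k) hk0 (by linarith) hh hh0 hM0 hb hM
    rw [← hstep, ← hstep2] at h1
    have h2 := hRIle (a (j + 1)) (σ + k + 3) (by linarith) (by linarith)
    have hCE0 : 0 ≤ CE K M := by unfold CE; positivity
    have h3 : DD u (fun t => deriv (fun τ => 2 * h τ + h τ ^ 2) (t - σ))
        ≤ 2 * dd u s / ((k : ℝ) + 1) + CE K M * (δ * dd u s) :=
      h1.trans (add_le_add hjle (mul_le_mul_of_nonneg_left h2 hCE0))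
    calc μ ^ 2 * DD u (fun t => deriv (fun τ => 2 * h τ + h τ ^ 2) (t - σ))
        ≤ μ ^ 2 * (2 * dd u s / ((k : ℝ) + 1) + CE K M * (δ * dd u s)) :=
          mul_le_mul_of_nonneg_left h3 (sq_nonneg μ)
      _ ≤ (4 / dd u s) * (2 * dd u s / ((k : ℝ) + 1) + CE K M * (δ * dd u s)) :=
          mul_le_mul_of_nonneg_right hμle (by positivity)
      _ = 8 / ((k : ℝ) + 1) + CE K M * (4 * δ) := by field_simp; ring

end Pool.Agent.H65.Stab
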