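import Pool.Agent.H65.Stab.LemmaA

set_option autoImplicit false

/-!
M12, third part: conclusion of Lemma A.
-/

open MeasureTheory Set Filter Topology Metric
open scoped ContDiff

namespace Pool.Agent.H65.Stab

open Pool.Agent.H94.Stab

variable {n : ℕ}

/-- `∫ ζ = 1`. -/
lemma integral_zeta : ∫ t, zeta t = 1 := by
  have h1 : ∫ t, zeta t = ∫ t in (0 : ℝ)..1, zeta t := by
    rw [intervalIntegral.integral_eq_integral_of_support_subset]
    intro t ht
    by_contra hcon
    rw [mem_Ioc, not_and_or, not_lt, not_le] at hcon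
    rcases hcon with h | h
    · exact ht (zeta_zero_le h)
    · exact ht (zeta_zero_ge h.le)
  rw [h1, intervalIntegral.integral_eq_sub_of_hasDerivAt (f := fun t => sg t ^ 2)
    (fun t _ => hasDerivAt_sgsq t) (zeta_contDiff.continuous.intervalIntegrable _ _)]
  rw [sg_zero le_rfl, sg_one le_rfl]; norm_num

/-- a bump function with zero mean relative to `ζ` has a compactly supported primitive. -/
lemma exists_prim {ψ : ℝ → ℝ} (hψ : Bump1 ψ) : ∃ G : ℝ → ℝ, Bump1 G ∧
    ∀ t, ψ t = (∫ s, ψ s) * zeta t + deriv G t := by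
  obtain ⟨T₀, hT₀⟩ := hψ.2.isCompact.isBounded.exists_norm_le
  set T : ℝ := max T₀ 0 + 1 with hT
  have hT1 : 1 ≤ T := by rw [hT]; linarith [le_max_right T₀ 0]
  have hψ0 : ∀ t, T ≤ |t| → ψ t = 0 := by
    intro t ht
    by_contra hcon
    have := hT₀ t (subset_tsupport _ hcon)
    rw [Real.norm_eq_abs] at this
    linarith [le_max_left T₀ 0]
  set m := ∫ s, ψ s with hm
  set q : ℝ → ℝ := fun t => ψ t - m * zeta t with hq
  have hqs : ContDiff ℝ ∞ q := hψ.1.sub (contDiff_const.mul zeta_contDiff)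
  have hq0 : ∀ t, T ≤ |t| → q t = 0 := by
    intro t ht
    simp only [hq]
    rw [hψ0 t ht]
    have : zeta t = 0 := by
      rcases le_abs.1 ht with h | h
      · exact zeta_zero_ge (by linarith)
      · exact zeta_zero_le (by linarith)
    rw [this]; ring
  have hqsupp : Function.support q ⊆ Ioc (-T) T := by
    intro t ht
    by_contra hcon
    rw [mem_Ioc, not_and_or, not_lt, not_le] at hcon
    refine ht (hq0 t ?_)
    rcases hcon with h | h
    · exact le_abs.2 (Or.inr (by linarith))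
    · exact le_abs.2 (Or.inl h.le)
  have hqc : HasCompactSupport q := by
    refine HasCompactSupport.intro (isCompact_Icc (a := -T) (b := T)) ?_
    intro t ht
    by_contra hcon
    exact ht (Ioc_subset_Icc_self (hqsupp hcon))
  have hqi : ∫ t, q t = 0 := by
    have i1 : Integrable ψ := hψ.1.continuous.integrable_of_hasCompactSupport hψ.2
    have hzc : HasCompactSupport zeta := by
      have := zeta_shift_supp 0
      simpa using this
    have i2 : Integrable zeta := zeta_contDiff.continuous.integrable_of_hasCompactSupport hzc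
    simp only [hq]
    rw [integral_sub i1 (i2.const_mul m), integral_const_mul, integral_zeta]
    rw [hm]; ring
  set G : ℝ → ℝ := fun t => ∫ s in (-T)..t, q s with hG
  have hGd : ∀ t, HasDerivAt G (q t) t := fun t =>
    intervalIntegral.integral_hasDerivAt_right (hqs.continuous.intervalIntegrable _ _)
      (hqs.continuous.stronglyMeasurableAtFilter _ _) hqs.continuous.continuousAt
  have hGderiv : deriv G = q := funext fun t => (hGd t).deriv
  have hGs : ContDiff ℝ ∞ G := by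
    rw [contDiff_infty_iff_deriv]
    exact ⟨fun t => (hGd t).differentiableAt, by rw [hGderiv]; exact hqs⟩
  have hGl : ∀ t, t ≤ -T → G t = 0 := by
    intro t ht
    simp only [hG]
    rw [intervalIntegral.integral_symm, neg_eq_zero]
    rw [intervalIntegral.integral_congr (g := fun _ => (0 : ℝ))]
    · simp
    · intro s hs
      rw [uIcc_of_le ht] at hs
      exact hq0 s (le_abs.2 (Or.inr (by linarith [hs.2])))
  have hGr : ∀ t, T ≤ t → G t = 0 := by
    intro t ht
    simp only [hG]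
    rw [intervalIntegral.integral_eq_integral_of_support_subset, hqi]
    exact hqsupp.trans (Ioc_subset_Ioc_right ht)
  refine ⟨G, ⟨hGs, ?_⟩, ?_⟩
  · refine HasCompactSupport.intro (isCompact_Icc (a := -T) (b := T)) ?_
    intro t ht
    rw [mem_Icc, not_and_or, not_le, not_le] at ht
    rcases ht with h | h
    · exact hGl t h.le
    · exact hGr t h.le
  · intro t
    rw [hGderiv]
    simp only [hq]; ring

/-- Square-root substitution. -/
lemma exists_h {G : ℝ → ℝ} (hG : Bump1 G) (hb : ∀ t, |G t| ≤ 1 / 2) : ∃ h : ℝ → ℝ,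
    ContDiff ℝ ∞ h ∧ (∀ t, G t = 0 → h t = 0) ∧ (∀ t, |h t| ≤ 1) ∧
    (∀ t, 2 * h t + h t ^ 2 = G t) ∧ ∃ M, 0 ≤ M ∧ ∀ t, |deriv h t| ≤ M := by
  have hpos : ∀ t, 1 / 2 ≤ 1 + G t := fun t => by have := (abs_le.1 (hb t)).1; linarith
  have hle : ∀ t, 1 + G t ≤ 3 / 2 := fun t => by have := (abs_le.1 (hb t)).2; linarith
  set h : ℝ → ℝ := fun t => Real.sqrt (1 + G t) - 1 with hh
  have hs : ContDiff ℝ ∞ h := by
    refine ContDiff.sub ?_ contDiff_const
    exact (contDiff_const.add hG.1).sqrt fun t => by have := hpos t; intro h; linarith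
  have h0 : ∀ t, G t = 0 → h t = 0 := by
    intro t ht; simp [hh, ht]
  refine ⟨h, hs, h0, ?_, ?_, ?_⟩
  · intro t
    simp only [hh]
    have h1 : 0 ≤ Real.sqrt (1 + G t) := Real.sqrt_nonneg _
    have h2 : Real.sqrt (1 + G t) ≤ 2 := by
      rw [Real.sqrt_le_left (by norm_num)]
      linarith [hle t]
    rw [abs_le]; constructor <;> linarith
  · intro t
    simp only [hh]
    have := Real.sq_sqrt (show 0 ≤ 1 + G t by linarith [hpos t])
    nlinarith
  · have hc : HasCompactSupport h := by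
      refine hG.2.mono' ?_
      intro t ht
      refine subset_tsupport _ ?_
      intro h'
      exact ht (h0 t h')
    have hdc : HasCompactSupport (deriv h) := hc.deriv
    obtain ⟨M, hM⟩ := hdc.exists_bound_of_continuous (hs.continuous_deriv (by simp))
    exact ⟨M, (norm_nonneg _).trans (hM 0), fun t => hM t⟩

/-- The two bounds give a bad sequence. -/
theorem badSeq_of {u : ℕ → E n → ℝ} {f F : ℕ → ℝ → ℝ} (hn : 1 ≤ n)
    (hst : ∀ k : ℕ, Stable (Ann n k) (f k) (F k) (u k)) (h1 : ∀ k, DD (u k) zeta = 1)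
    {ρ : ℕ → ℝ} (hρ : Tendsto ρ atTop (𝓝 0))
    (hR : ∀ k : ℕ, ∀ ψ : ℝ → ℝ, Continuous ψ → (∀ t, (k : ℝ) ≤ |t| → ψ t = 0) → ∀ M,
      (∀ t, |ψ t| ≤ M) → |RR (u k) ψ| ≤ M * ρ k) {CC : ℝ → ℝ}
    (hH : ∀ k : ℕ, ∀ h : ℝ → ℝ, ContDiff ℝ ∞ h → (∀ t, (k : ℝ) ≤ |t| → h t = 0) →
      (∀ t, |h t| ≤ 1) → ∀ M, 0 ≤ M → (∀ t, |deriv h t| ≤ M) →
        DD (u k) (deriv (fun τ => 2 * h τ + h τ ^ 2)) ≤ 8 / ((k : ℝ) + 1) + CC M * ρ k) :
    BadSeq u f F := by
  have hsup : ∀ ψ : ℝ → ℝ, HasCompactSupport ψ → ∃ N : ℕ, ∀ k ≥ N, ∀ t, (k : ℝ) ≤ |t| → ψ t = 0 := by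
    intro ψ hψ
    obtain ⟨T₀, hT₀⟩ := hψ.isCompact.isBounded.exists_norm_le
    obtain ⟨N, hN⟩ := exists_nat_gt T₀
    refine ⟨N, fun k hk t ht => ?_⟩
    by_contra hcon
    have h3 := hT₀ t (subset_tsupport _ hcon)
    rw [Real.norm_eq_abs] at h3
    have : (N : ℝ) ≤ k := by exact_mod_cast hk
    linarith
  refine ⟨hst, ?_, ?_⟩
  · intro ψ hψ
    obtain ⟨M, hM⟩ := hψ.2.exists_bound_of_continuous hψ.1.continuous
    obtain ⟨N, hN⟩ := hsup ψ hψ.2
    refine squeeze_zero_norm' (a := fun k => M * ρ k) ?_ ?_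
    · filter_upwards [eventually_ge_atTop N] with k hk
      exact hR k ψ hψ.1.continuous (hN k hk) M hM
    · have := hρ.const_mul M
      rwa [mul_zero] at this
  · -- derivative of bumps
    have hone : ∀ G, Bump1 G → (∀ t, |G t| ≤ 1 / 2) → ∃ w : ℕ → ℝ, Tendsto w atTop (𝓝 0) ∧
        ∀ᶠ k in atTop, DD (u k) (deriv G) ≤ w k := by
      intro G hG hb
      obtain ⟨h, hs, h0, hb1, he, M, hM0, hM⟩ := exists_h hG hb
      obtain ⟨N, hN⟩ := hsup G hG.2
      refine ⟨fun k => 8 / ((k : ℝ) + 1) + CC M * ρ k, ?_, ?_⟩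
      · have a1 : Tendsto (fun k : ℕ => 8 / ((k : ℝ) + 1)) atTop (𝓝 0) :=
          tendsto_const_div_atTop_nhds_zero_nat 8 |>.comp (tendsto_add_atTop_nat 1) |>.congr
            (fun k => by simp)
        have a2 := hρ.const_mul (CC M)
        rw [mul_zero] at a2
        simpa using a1.add a2
      · filter_upwards [eventually_ge_atTop N] with k hk
        have := hH k h hs (fun t ht => h0 t (hN k hk t ht)) hb1 M hM0 hM
        have e : (fun τ => 2 * h τ + h τ ^ 2) = G := funext he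
        rwa [e] at this
    have htwo : ∀ G, Bump1 G → Tendsto (fun k => DD (u k) (deriv G)) atTop (𝓝 0) := by
      intro G hG
      obtain ⟨m, hm⟩ := hG.2.exists_bound_of_continuous hG.1.continuous
      have hm0 : 0 ≤ m := (norm_nonneg _).trans (hm 0)
      set ε : ℝ := 1 / (2 * m + 2) with hε
      have hε0 : 0 < ε := by positivity
      have hεb : ∀ t, ε * |G t| ≤ 1 / 2 := by
        intro t
        have h3 : |G t| ≤ m := hm t
        calc ε * |G t| ≤ ε * m := mul_le_mul_of_nonneg_left h3 hε0.le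
          _ = m / (2 * m + 2) := by rw [hε]; ring
          _ ≤ 1 / 2 := by rw [div_le_div_iff₀ (by positivity) (by norm_num)]; linarith
      have hsm : ∀ c : ℝ, Bump1 (fun t => c * G t) := fun c =>
        ⟨contDiff_const.mul hG.1, hG.2.mul_left⟩
      have hder : ∀ c : ℝ, deriv (fun t => c * G t) = fun t => c * deriv G t := by
        intro c; funext t
        exact ((hG.1.differentiable (by simp) t).hasDerivAt.const_mul c).deriv
      have hDD : ∀ (c : ℝ) (k : ℕ), DD (u k) (deriv fun t => c * G t) = c * DD (u k) (deriv G) := by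
        intro c k
        rw [hder]
        unfold DD
        rw [← integral_const_mul]
        refine integral_congr_ae (Eventually.of_forall fun x => ?_)
        show _ * _ * (c * _) = c * (_ * _ * _)
        ring
      obtain ⟨w₁, hw₁, hl₁⟩ := hone _ (hsm ε) (fun t => by
        rw [abs_mul, abs_of_pos hε0]; exact hεb t)
      obtain ⟨w₂, hw₂, hl₂⟩ := hone _ (hsm (-ε)) (fun t => by
        rw [abs_mul, abs_neg, abs_of_pos hε0]; exact hεb t)
      have l1 : Tendsto (fun k => w₁ k / ε) atTop (𝓝 0) := by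
        simpa using hw₁.div_const ε
      have l2 : Tendsto (fun k => - (w₂ k / ε)) atTop (𝓝 0) := by
        simpa using (hw₂.div_const ε).neg
      refine tendsto_of_tendsto_of_tendsto_of_le_of_le' l2 l1 ?_ ?_
      · filter_upwards [hl₂] with k hk
        rw [hDD] at hk
        rw [neg_le, ← mul_le_mul_iff_right₀ hε0]
        rw [mul_div_cancel₀ _ hε0.ne']
        linarith
      · filter_upwards [hl₁] with k hk
        rw [hDD] at hk
        rw [le_div_iff₀ hε0]
        linarith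
    intro ψ hψ
    obtain ⟨G, hG, he⟩ := exists_prim hψ
    set m := ∫ s, ψ s with hm
    have hk : ∀ k, DD (u k) ψ = m + DD (u k) (deriv G) := by
      intro k
      have hu := (hst k).smooth
      have hdc : Continuous (deriv G) := hG.1.continuous_deriv (by simp)
      have hzc : HasCompactSupport zeta := by
        have := zeta_shift_supp 0
        simpa using this
      have i1 := bump_integrable (mD_lt_top hn hu) zeta_contDiff.continuous hzc
      have i2 := bump_integrable (mD_lt_top hn hu) hdc hG.2.deriv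
      have h3 := h1 k
      rw [DD_eq hu zeta_contDiff.continuous.measurable] at h3
      rw [DD_eq hu hψ.1.continuous.measurable, DD_eq hu hdc.measurable]
      rw [show (fun t => ψ t) = fun t => m * zeta t + deriv G t from funext he]
      rw [integral_add (i1.const_mul m) i2, integral_const_mul, h3, mul_one]
    have := (htwo G hG).const_add m
    rw [add_zero] at this
    exact this.congr fun k => (hk k).symm

theorem lemmaA_of (hS : StabIneq n)
    (hB : ∀ (u : ℕ → E n → ℝ) (f F : ℕ → ℝ → ℝ), BadSeq u f F → False)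
    (hn6 : 6 ≤ n) (hn9 : n ≤ 9) : ∃ B : ℕ, 2 ≤ B ∧ ∃ δ > 0,
    ∀ (f F : ℝ → ℝ) (u : E n → ℝ), Stable (Metric.ball 0 1) f F u →
      ∀ s : ℝ, s + 1 < 0 → RI u (s - 2 * B + 1) (s + 1) ≤ δ * dd u s →
        dd u (s - B) ≤ dd u s / 2 := by
  have hn1 : 1 ≤ n := by omega
  by_contra hcon
  push Not at hcon
  obtain ⟨K, hK0, hK1, hK2, hK3⟩ := exists_K
  obtain ⟨C₀, hC₀, c₀, hc₀, hmon⟩ := monot_of hS hn6 hn9
  set δ : ℕ → ℝ := fun k => 1 / (8 * (C₀ + 1) * ((k : ℝ) + 1)) with hδ
  have hδ0 : ∀ k, 0 < δ k := fun k => by simp only [hδ]; positivity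
  have hδC : ∀ k, C₀ * δ k ≤ 1 / 8 := by
    intro k
    simp only [hδ]
    rw [mul_one_div, div_le_div_iff₀ (by positivity) (by norm_num)]
    have : (0 : ℝ) ≤ k := Nat.cast_nonneg k
    nlinarith
  have hbad : ∀ k : ℕ, ∃ (f' F' : ℝ → ℝ) (v : E n → ℝ), Stable (Ann n k) f' F' v ∧ DD v zeta = 1 ∧
      (∀ ψ : ℝ → ℝ, Continuous ψ → (∀ t, (k : ℝ) ≤ |t| → ψ t = 0) → ∀ M, (∀ t, |ψ t| ≤ M) →
        |RR v ψ| ≤ M * (4 * δ k)) ∧
      (∀ h : ℝ → ℝ, ContDiff ℝ ∞ h → (∀ t, (k : ℝ) ≤ |t| → h t = 0) → (∀ t, |h t| ≤ 1) →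
        ∀ M, 0 ≤ M → (∀ t, |deriv h t| ≤ M) →
        DD v (deriv (fun τ => 2 * h τ + h τ ^ 2)) ≤ 8 / ((k : ℝ) + 1) + CE K M * (4 * δ k)) := by
    intro k
    obtain ⟨f, F, u, hst, s, hs, hRI, hgt⟩ := hcon ((k + 1) * (2 * k + 4) + 4) (by nlinarith) (δ k) (hδ0 k)
    refine good_of_bad hS hn6 hn9 hK0 hK1 hK2 hC₀ hc₀ hmon k (hδ0 k) (hδC k) hst hs ?_ hRI hgt
    push_cast; ring
  choose f F v hst h1 hR hH using hbad
  refine hB v f F (badSeq_of hn1 hst h1 (ρ := fun k => 4 * δ k) ?_ hR (CC := CE K) hH)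
  have : Tendsto (fun k : ℕ => (4 / (8 * (C₀ + 1))) * (1 / ((k : ℝ) + 1))) atTop (𝓝 ((4 / (8 * (C₀ + 1))) * 0)) :=
    tendsto_one_div_add_atTop_nhds_zero_nat.const_mul _
  rw [mul_zero] at this
  refine this.congr fun k => ?_
  simp only [hδ]
  field_simp

end Pool.Agent.H65.Stab
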