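import Pool.Agent.H65.Stab.LemmaA2
import Pool.Agent.H46.Stab.M2

set_option autoImplicit false

/-!
M12: monotonicity inequality and Lemma A (MP_de3e90_an).
-/

open MeasureTheory Set Filter Topology
open scoped ContDiff

namespace Pool.Agent.H94.Stab

variable {n : ℕ}

/-- The radial stability inequality. -/
theorem stabIneq (hn : 3 ≤ n) : H65.Stab.StabIneq n := by
  intro Ω f F u h g hg hsub
  have h1 := h.stab _ (test_ceta hn h hg hsub)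
  rw [radial_identity hn h hg hsub] at h1
  linarith

theorem monot (hn6 : 6 ≤ n) (hn9 : n ≤ 9) : ∃ C : ℝ, 0 < C ∧ ∃ c : ℝ, 0 < c ∧
    ∀ (f F : ℝ → ℝ) (u : E n → ℝ), Stable (Metric.ball 0 1) f F u →
      ∀ s₀ s₁ : ℝ, s₀ + 1 ≤ s₁ → s₁ + 1 < 0 →
        dd u s₀ + c * RI u (s₀ + 1) s₁ ≤
          dd u s₁ + C * (RI u s₀ (s₀ + 1) + RI u s₁ (s₁ + 1)) :=
  H65.Stab.monot_of (stabIneq (by omega)) hn6 hn9

/-- Lemma A, from Theorem B. -/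
theorem lemmaA_of (hB : ∀ (u : ℕ → E n → ℝ) (f F : ℕ → ℝ → ℝ), BadSeq u f F → False)
    (hn6 : 6 ≤ n) (hn9 : n ≤ 9) : ∃ B : ℕ, 2 ≤ B ∧ ∃ δ > 0,
    ∀ (f F : ℝ → ℝ) (u : E n → ℝ), Stable (Metric.ball 0 1) f F u →
      ∀ s : ℝ, s + 1 < 0 → RI u (s - 2 * B + 1) (s + 1) ≤ δ * dd u s →
        dd u (s - B) ≤ dd u s / 2 :=
  H65.Stab.lemmaA_of (stabIneq (by omega)) hB hn6 hn9

end Pool.Agent.H94.Stab
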