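import Pool.Agent.H65.Stab.Iter
import Pool.Agent.H65.Stab.M12

set_option autoImplicit false

/-!
M13: pointwise bound (MP_de3e90_an), from the representation lemma and Theorem B.
-/

open MeasureTheory Set Filter Topology
open scoped ContDiff

namespace Pool.Agent.H94.Stab

variable {n : ℕ}

theorem pointwise_of (hR : ∃ C > 0, ∃ c > 0, ∀ u : E n → ℝ, ContDiff ℝ ∞ u →
    ∃ U : ℝ → ℝ, Differentiable ℝ U ∧ (∀ s, deriv U s ^ 2 ≤ C * RI u s (s + 1)) ∧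
      Tendsto U atBot (𝓝 (c * u 0)) ∧ (U (-2)) ^ 2 ≤ C * ∫ x in Metric.ball (0 : E n) 1, u x ^ 2)
    (hB : ∀ (u : ℕ → E n → ℝ) (f F : ℕ → ℝ → ℝ), BadSeq u f F → False)
    (hn6 : 6 ≤ n) (hn9 : n ≤ 9) : ∃ C : ℝ,
    ∀ (f F : ℝ → ℝ) (u : E n → ℝ), Stable (Metric.ball 0 1) f F u →
      (u 0) ^ 2 ≤ C * ∫ x in Metric.ball (0 : E n) 1, (u x ^ 2 + gsq u x) :=
  H65.Stab.pointwise_of hn6 hR (monot hn6 hn9) (lemmaA_of hB hn6 hn9)

end Pool.Agent.H94.Stab
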