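import Pool.Agent.H65.Stab.Step

set_option autoImplicit false

/-!
M12, first part: the monotonicity inequality.
-/

open MeasureTheory Set Filter Topology Metric
open scoped ContDiff

namespace Pool.Agent.H65.Stab

open Pool.Agent.H94.Stab

variable {n : ℕ}

/-- The stability inequality for the test functions `c |x|^{-(n-2)/2} g(log |x|)` (from M2). -/
def StabIneq (n : ℕ) : Prop :=
  ∀ (Ω : Set (E n)) (f F : ℝ → ℝ) (u : E n → ℝ), Stable Ω f F u → ∀ g : ℝ → ℝ, Bump1 g →
    (∀ x : E n, x ≠ 0 → Real.log ‖x‖ ∈ tsupport g → x ∈ Ω) →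
    DD u (fun t => 2 * g t * deriv g t) ≤
      RR u (fun t => deriv g t ^ 2 + (6 - (n : ℝ)) * g t * deriv g t
        - ((n : ℝ) - 2) / 2 * (4 - ((n : ℝ) - 2) / 2) * g t ^ 2)

lemma sub_ball {g : ℝ → ℝ} (hg : tsupport g ⊆ Iio 0) :
    ∀ x : E n, x ≠ 0 → Real.log ‖x‖ ∈ tsupport g → x ∈ ball (0 : E n) 1 := by
  intro x hx h
  rw [mem_ball_zero_iff]
  have h1 : Real.log ‖x‖ < 0 := hg h
  by_contra hcon
  exact absurd (Real.log_nonneg (not_lt.1 hcon)) (not_le.2 h1)

lemma bump_integrable {μ : Measure ℝ}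
    (hμ : ∀ T, μ (Iic T) < ⊤) {ψ : ℝ → ℝ} (hψ : Continuous ψ) (hc : HasCompactSupport ψ) :
    Integrable ψ μ := by
  have : IsFiniteMeasureOnCompacts μ := ⟨fun K hK => by
    obtain ⟨T, hT⟩ := hK.bddAbove
    exact (measure_mono (fun x hx => hT hx)).trans_lt (hμ T)⟩
  exact hψ.integrable_of_hasCompactSupport hc

lemma indicator_Ico_integrable {μ : Measure ℝ} (hμ : ∀ T, μ (Iic T) < ⊤) (a b c : ℝ) :
    Integrable ((Ico a b).indicator fun _ => c) μ := by
  rw [integrable_indicator_iff measurableSet_Ico]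
  refine integrableOn_const ?_
  exact ((measure_mono (fun x hx => (le_of_lt hx.2 : x ≤ b))).trans_lt (hμ b)).ne

theorem monot_of (hS : StabIneq n) (hn6 : 6 ≤ n) (hn9 : n ≤ 9) : ∃ C : ℝ, 0 < C ∧ ∃ c : ℝ, 0 < c ∧
    ∀ (f F : ℝ → ℝ) (u : E n → ℝ), Stable (Metric.ball 0 1) f F u →
      ∀ s₀ s₁ : ℝ, s₀ + 1 ≤ s₁ → s₁ + 1 < 0 →
        dd u s₀ + c * RI u (s₀ + 1) s₁ ≤
          dd u s₁ + C * (RI u s₀ (s₀ + 1) + RI u s₁ (s₁ + 1)) := by
  obtain ⟨K, hK0, hK1, hK2, hK3⟩ := exists_K
  have hn1 : 1 ≤ n := by omega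
  set κ : ℝ := ((n : ℝ) - 2) / 2 * (4 - ((n : ℝ) - 2) / 2) with hκ
  have h6 : (6 : ℝ) ≤ n := by exact_mod_cast hn6
  have h9 : (n : ℝ) ≤ 9 := by exact_mod_cast hn9
  have hκ1 : 1 ≤ κ := by rw [hκ]; nlinarith
  refine ⟨(2 * K) ^ 2 + 3 * (2 * K) + 1, by positivity, 1, one_pos, ?_⟩
  intro f F u hst s₀ s₁ h01 h1
  have hu := hst.smooth
  set C : ℝ := (2 * K) ^ 2 + 3 * (2 * K) + 1 with hC
  have hC0 : 0 ≤ C := by positivity
  set g := plat s₀ s₁ with hg
  have hts : tsupport g ⊆ Iio 0 := fun t ht => by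
    have := plat_tsupport s₀ s₁ ht
    exact lt_of_le_of_lt this.2 h1
  have hineq := hS (ball 0 1) f F u hst g (plat_bump s₀ s₁) (sub_ball hts)
  have hDc : (fun t => 2 * g t * deriv g t) = fun t => zeta (t - s₀) - zeta (t - s₁) := by
    funext t; exact plat_dplat h01 t
  have hzc : Continuous zeta := zeta_contDiff.continuous
  have hz : ∀ s, Continuous fun t => zeta (t - s) := fun s => hzc.comp (by fun_prop)
  have hzs : ∀ s, HasCompactSupport fun t => zeta (t - s) := by
    intro s
    refine HasCompactSupport.intro (isCompact_Icc (a := s) (b := s + 1)) ?_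
    intro t ht
    rw [mem_Icc, not_and_or, not_le, not_le] at ht
    rcases ht with h | h
    · exact zeta_zero_le (by linarith)
    · exact zeta_zero_ge (by linarith)
  have hmD := mD_lt_top hn1 hu
  have hmR := mR_lt_top hn1 hu
  have hD : DD u (fun t => 2 * g t * deriv g t) = dd u s₀ - dd u s₁ := by
    rw [hDc]
    unfold dd
    rw [DD_eq hu (show Measurable (fun t => zeta (t - s₀) - zeta (t - s₁)) from
        ((hz s₀).sub (hz s₁)).measurable), DD_eq hu (hz s₀).measurable,
      DD_eq hu (hz s₁).measurable, ← integral_sub]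
    · exact bump_integrable hmD (hz s₀) (hzs s₀)
    · exact bump_integrable hmD (hz s₁) (hzs s₁)
  -- pointwise bound of the right hand side
  set ER : ℝ → ℝ := fun t => deriv g t ^ 2 + (6 - (n : ℝ)) * g t * deriv g t - κ * g t ^ 2 with hER
  have hgc : Continuous g := (plat_contDiff s₀ s₁).continuous
  have hdgc : Continuous (deriv g) := (plat_contDiff s₀ s₁).continuous_deriv (by simp)
  have hERc : Continuous ER := by simp only [hER]; fun_prop
  have hdg0 : ∀ t, t ≤ s₀ ∨ s₁ + 1 ≤ t → deriv g t = 0 := by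
    intro t ht
    rw [hg, deriv_plat]
    rcases ht with h | h
    · rw [sg_zero (by linarith), dsg_zero_le (by linarith)]; ring
    · rw [cg_zero (by linarith), dcg_zero_ge (by linarith)]; ring
  have hER0 : ∀ t, t ≤ s₀ ∨ s₁ + 1 ≤ t → ER t = 0 := by
    intro t ht
    have e1 := hdg0 t ht
    have e2 : g t = 0 := plat_zero ht
    simp only [hER, e1, e2]
    ring
  have hERmid : ∀ t, s₀ + 1 ≤ t → t ≤ s₁ → ER t = - κ := by
    intro t h2 h3
    have e1 : g t = 1 := plat_one h2 h3
    have e2 : deriv g t = 0 := by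
      rw [hg, deriv_plat, dsg_zero_ge (by linarith), dcg_zero_le (by linarith)]; ring
    simp only [hER, e1, e2]; ring
  have hdgb : ∀ t, |deriv g t| ≤ 2 * K := by
    intro t
    rw [hg, deriv_plat]
    have a1 := hK1 (t - s₀)
    have a2 := hK2 (t - s₁)
    have b1 : |deriv sg (t - s₀) * cg (t - s₁)| ≤ K := by
      rw [abs_mul, abs_of_nonneg (cg_nonneg _)]
      nlinarith [cg_le_one (t - s₁), cg_nonneg (t - s₁), abs_nonneg (deriv sg (t - s₀))]
    have b2 : |sg (t - s₀) * deriv cg (t - s₁)| ≤ K := by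
      rw [abs_mul, abs_of_nonneg (sg_nonneg _)]
      nlinarith [sg_le_one (t - s₀), sg_nonneg (t - s₀), abs_nonneg (deriv cg (t - s₁))]
    exact (abs_add_le _ _).trans (by linarith)
  have hERb : ∀ t, ER t ≤ C := by
    intro t
    have e1 := hdgb t
    have e2 := plat_nonneg s₀ s₁ t
    have e3 := plat_le_one s₀ s₁ t
    have e4 : deriv g t ^ 2 ≤ (2 * K) ^ 2 := by
      rw [← sq_abs]
      exact pow_le_pow_left₀ (abs_nonneg _) e1 2
    have e5 : (6 - (n : ℝ)) * g t * deriv g t ≤ 3 * (2 * K) := by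
      have : |(6 - (n : ℝ)) * g t * deriv g t| ≤ 3 * 1 * (2 * K) := by
        rw [abs_mul, abs_mul]
        refine mul_le_mul (mul_le_mul ?_ ?_ (abs_nonneg _) (by norm_num)) e1 (abs_nonneg _) (by norm_num)
        · rw [abs_le]; constructor <;> linarith
        · rw [abs_of_nonneg e2]; exact e3
      linarith [le_abs_self ((6 - (n : ℝ)) * g t * deriv g t)]
    have e6 : 0 ≤ κ * g t ^ 2 := by positivity
    simp only [hER]
    linarith
  have hpt : ∀ t, ER t ≤ (Ico s₀ (s₀ + 1)).indicator (fun _ => C) t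
      + (Ico (s₀ + 1) s₁).indicator (fun _ => -1) t + (Ico s₁ (s₁ + 1)).indicator (fun _ => C) t := by
    intro t
    rcases lt_or_ge t s₀ with h | h
    · rw [hER0 t (Or.inl h.le), indicator_of_notMem, indicator_of_notMem, indicator_of_notMem]
      · simp
      · exact fun hh => absurd hh.1 (by linarith)
      · exact fun hh => absurd hh.1 (by linarith)
      · exact fun hh => absurd hh.1 (by linarith)
    rcases lt_or_ge t (s₀ + 1) with h2 | h2
    · rw [indicator_of_mem (show t ∈ Ico s₀ (s₀ + 1) from ⟨h, h2⟩), indicator_of_notMem,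
        indicator_of_notMem]
      · have := hERb t; linarith
      · exact fun hh => absurd hh.1 (by linarith)
      · exact fun hh => absurd hh.1 (by linarith)
    rcases lt_or_ge t s₁ with h3 | h3
    · rw [indicator_of_mem (show t ∈ Ico (s₀ + 1) s₁ from ⟨h2, h3⟩), indicator_of_notMem,
        indicator_of_notMem]
      · rw [hERmid t h2 h3.le]; linarith
      · exact fun hh => absurd hh.1 (by linarith)
      · exact fun hh => absurd hh.2 (by linarith)
    rcases lt_or_ge t (s₁ + 1) with h4 | h4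
    · rw [indicator_of_mem (show t ∈ Ico s₁ (s₁ + 1) from ⟨h3, h4⟩), indicator_of_notMem,
        indicator_of_notMem]
      · have := hERb t; linarith
      · exact fun hh => absurd hh.2 (by linarith)
      · exact fun hh => absurd hh.2 (by linarith)
    · rw [hER0 t (Or.inr h4), indicator_of_notMem, indicator_of_notMem, indicator_of_notMem]
      · simp
      · exact fun hh => absurd hh.2 (by linarith)
      · exact fun hh => absurd hh.2 (by linarith)
      · exact fun hh => absurd hh.2 (by linarith)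
  have hERs : HasCompactSupport ER := by
    refine HasCompactSupport.intro (isCompact_Icc (a := s₀) (b := s₁ + 1)) ?_
    intro t ht
    rw [mem_Icc, not_and_or, not_le, not_le] at ht
    exact hER0 t (ht.imp le_of_lt le_of_lt)
  have hRR : RR u ER ≤ C * RI u s₀ (s₀ + 1) - RI u (s₀ + 1) s₁ + C * RI u s₁ (s₁ + 1) := by
    rw [RR_eq hu hERc.measurable]
    have i1 := indicator_Ico_integrable hmR s₀ (s₀ + 1) C
    have i2 := indicator_Ico_integrable hmR (s₀ + 1) s₁ (-1)
    have i3 := indicator_Ico_integrable hmR s₁ (s₁ + 1) C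
    refine (integral_mono (bump_integrable hmR hERc hERs) ((i1.add i2).add i3) hpt).trans ?_
    have e : ∫ t, ((Ico s₀ (s₀ + 1)).indicator (fun _ => C) t
        + (Ico (s₀ + 1) s₁).indicator (fun _ => (-1 : ℝ)) t
        + (Ico s₁ (s₁ + 1)).indicator (fun _ => C) t) ∂(mR u)
        = C * RI u s₀ (s₀ + 1) - RI u (s₀ + 1) s₁ + C * RI u s₁ (s₁ + 1) := by
      have i12 : Integrable (fun t => (Ico s₀ (s₀ + 1)).indicator (fun _ => C) t
        + (Ico (s₀ + 1) s₁).indicator (fun _ => (-1 : ℝ)) t) (mR u) := i1.add i2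
      rw [integral_add i12 i3, integral_add i1 i2, integral_indicator measurableSet_Ico,
        integral_indicator measurableSet_Ico, integral_indicator measurableSet_Ico,
        RI_eq hu, RI_eq hu, RI_eq hu]
      simp only [integral_const, measureReal_restrict_apply_univ, smul_eq_mul]
      ring
    exact e.le
  rw [hD] at hineq
  have : RR u (fun t => deriv g t ^ 2 + (6 - (n : ℝ)) * g t * deriv g t
        - ((n : ℝ) - 2) / 2 * (4 - ((n : ℝ) - 2) / 2) * g t ^ 2) = RR u ER := rfl
  rw [this] at hineq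
  linarith

end Pool.Agent.H65.Stab
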