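import Pool.Agent.H94.Stab.Defs

set_option autoImplicit false

/-!
Radial measures: `DD u ψ` and `RR u ψ` as integrals of `ψ` against measures on the line.
-/

open MeasureTheory Set Filter Topology Metric
open scoped ContDiff

namespace Pool.Agent.H65.Stab

open Pool.Agent.H94.Stab

variable {n : ℕ}

/-- push-forward under `log ‖x‖` of the measure with density `w`. -/
noncomputable def radM (w : E n → ℝ) : Measure ℝ :=
  Measure.map (fun x : E n => Real.log ‖x‖) (volume.withDensity fun x => ENNReal.ofReal (w x))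

lemma measurable_logn : Measurable (fun x : E n => Real.log ‖x‖) :=
  Real.measurable_log.comp measurable_norm

lemma integral_radM {w : E n → ℝ} (hw : Measurable w) (hw0 : ∀ x, 0 ≤ w x) {ψ : ℝ → ℝ}
    (hψ : Measurable ψ) : ∫ t, ψ t ∂(radM w) = ∫ x, w x * ψ (Real.log ‖x‖) := by
  unfold radM
  rw [integral_map measurable_logn.aemeasurable hψ.aestronglyMeasurable,
    integral_withDensity_eq_integral_toReal_smul hw.ennreal_ofReal (by simp)]
  refine integral_congr_ae (Eventually.of_forall fun x => ?_)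
  simp only [smul_eq_mul]
  rw [ENNReal.toReal_ofReal (hw0 x)]

lemma radM_lt_top {w : E n → ℝ} (hw : Measurable w) {S : Set ℝ} (hS : MeasurableSet S)
    (hint : IntegrableOn w ((fun x : E n => Real.log ‖x‖) ⁻¹' S)) : radM w S < ⊤ := by
  unfold radM
  rw [Measure.map_apply measurable_logn hS, withDensity_apply _ (measurable_logn hS)]
  refine (lintegral_mono fun x => ?_).trans_lt hint.2
  rw [← ofReal_norm_eq_enorm]
  exact ENNReal.ofReal_le_ofReal (le_abs_self _)

/-- density of the `D` measure. -/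
noncomputable def wD (u : E n → ℝ) (x : E n) : ℝ := gsq u x * ‖x‖ ^ (2 - (n : ℝ))

/-- density of the `R` measure. -/
noncomputable def wR (u : E n → ℝ) (x : E n) : ℝ := (cc u x) ^ 2 * ‖x‖ ^ (-(n : ℝ))

/-- the measure `D(t) dt`. -/
noncomputable def mD (u : E n → ℝ) : Measure ℝ := radM (wD u)
/-- the measure `R(t) dt`. -/
noncomputable def mR (u : E n → ℝ) : Measure ℝ := radM (wR u)

lemma continuous_pd {u : E n → ℝ} (hu : ContDiff ℝ ∞ u) (i : Fin n) : Continuous (pd i u) := by
  unfold pd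
  exact (hu.continuous_fderiv (by simp)).clm_apply continuous_const

lemma continuous_gsq {u : E n → ℝ} (hu : ContDiff ℝ ∞ u) : Continuous (gsq u) := by
  unfold gsq
  exact continuous_finsetSum _ fun i _ => (continuous_pd hu i).pow 2

lemma continuous_coord (i : Fin n) : Continuous fun x : E n => x i :=
  (EuclideanSpace.proj i : E n →L[ℝ] ℝ).continuous

lemma continuous_cc {u : E n → ℝ} (hu : ContDiff ℝ ∞ u) : Continuous (cc u) := by
  unfold cc
  exact continuous_finsetSum _ fun i _ => (continuous_coord i).mul (continuous_pd hu i)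

lemma gsq_nonneg (u : E n → ℝ) (x : E n) : 0 ≤ gsq u x :=
  Finset.sum_nonneg fun _ _ => sq_nonneg _

lemma wD_nonneg (u : E n → ℝ) (x : E n) : 0 ≤ wD u x :=
  mul_nonneg (gsq_nonneg u x) (Real.rpow_nonneg (norm_nonneg _) _)

lemma wR_nonneg (u : E n → ℝ) (x : E n) : 0 ≤ wR u x :=
  mul_nonneg (sq_nonneg _) (Real.rpow_nonneg (norm_nonneg _) _)

lemma measurable_wD {u : E n → ℝ} (hu : ContDiff ℝ ∞ u) : Measurable (wD u) := by
  unfold wD
  exact (continuous_gsq hu).measurable.mul (measurable_norm.pow_const _)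

lemma measurable_wR {u : E n → ℝ} (hu : ContDiff ℝ ∞ u) : Measurable (wR u) := by
  unfold wR
  exact ((continuous_cc hu).measurable.pow_const 2).mul (measurable_norm.pow_const _)

lemma cc_sq_le (u : E n → ℝ) (x : E n) : (cc u x) ^ 2 ≤ ‖x‖ ^ 2 * gsq u x := by
  unfold cc gsq
  have h := Finset.sum_mul_sq_le_sq_mul_sq (Finset.univ : Finset (Fin n)) (fun i => x i)
    (fun i => pd i u x)
  rwa [← EuclideanSpace.real_norm_sq_eq] at h

lemma wR_le_wD (u : E n → ℝ) {x : E n} (hx : x ≠ 0) : wR u x ≤ wD u x := by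
  unfold wR wD
  have hx' : 0 < ‖x‖ := norm_pos_iff.2 hx
  have h1 : ‖x‖ ^ (2 - (n : ℝ)) = ‖x‖ ^ 2 * ‖x‖ ^ (-(n : ℝ)) := by
    rw [sub_eq_add_neg, Real.rpow_add hx']
    norm_num
  rw [h1]
  have := mul_le_mul_of_nonneg_right (cc_sq_le u x) (Real.rpow_nonneg hx'.le (-(n : ℝ)))
  linarith

/-- local integrability of `‖x‖^{2-n}`. -/
lemma integrableOn_norm_rpow (hn : 1 ≤ n) (r : ℝ) :
    IntegrableOn (fun x : E n => ‖x‖ ^ (2 - (n : ℝ))) (ball 0 r) := by
  have : Nontrivial (E n) := by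
    have : Nonempty (Fin n) := ⟨⟨0, hn⟩⟩
    infer_instance
  rw [integrableOn_fun_norm_addHaar (μ := (volume : Measure (E n))) (f := fun y => y ^ (2 - (n : ℝ)))]
  have h1 : IntegrableOn (fun y : ℝ => y) (Ioo 0 r) :=
    (continuous_id.integrableOn_Icc (a := 0) (b := r)).mono_set Ioo_subset_Icc_self
  refine h1.congr_fun ?_ measurableSet_Ioo
  intro y hy
  have hy0 : 0 < y := hy.1
  have h2 : Module.finrank ℝ (E n) = n := by simp
  simp only [smul_eq_mul, h2]
  rw [← Real.rpow_natCast, ← Real.rpow_add hy0, Nat.cast_sub hn]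
  norm_num

lemma integrableOn_wD (hn : 1 ≤ n) {u : E n → ℝ} (hu : ContDiff ℝ ∞ u) (r : ℝ) :
    IntegrableOn (wD u) (ball 0 r) := by
  obtain ⟨C, hC⟩ := (isCompact_closedBall (0 : E n) r).exists_bound_of_continuousOn
    (continuous_gsq hu).continuousOn
  have h1 := (integrableOn_norm_rpow hn r).const_mul C
  refine h1.mono' (measurable_wD hu).aestronglyMeasurable ?_
  rw [ae_restrict_iff' measurableSet_ball]
  refine Eventually.of_forall fun x hx => ?_
  rw [Real.norm_of_nonneg (wD_nonneg u x)]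
  have := hC x (ball_subset_closedBall hx)
  exact mul_le_mul_of_nonneg_right ((le_abs_self _).trans this) (Real.rpow_nonneg (norm_nonneg _) _)

lemma integrableOn_wR (hn : 1 ≤ n) {u : E n → ℝ} (hu : ContDiff ℝ ∞ u) (r : ℝ) :
    IntegrableOn (wR u) (ball 0 r) := by
  refine (integrableOn_wD hn hu r).mono' (measurable_wR hu).aestronglyMeasurable ?_
  have : Nonempty (Fin n) := ⟨⟨0, hn⟩⟩
  have h0 : ∀ᵐ x : E n ∂(volume.restrict (ball 0 r)), x ≠ 0 := by
    refine ae_restrict_of_ae ?_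
    rw [ae_iff]
    have : {a : E n | ¬ a ≠ 0} = {0} := by ext; simp
    rw [this]
    exact measure_singleton _
  filter_upwards [h0] with x hx
  rw [Real.norm_of_nonneg (wR_nonneg u x)]
  exact wR_le_wD u hx

lemma preimage_Iic_subset (T : ℝ) :
    (fun x : E n => Real.log ‖x‖) ⁻¹' (Iic T) ⊆ insert 0 (ball 0 (Real.exp (T + 1))) := by
  intro x hx
  by_cases h0 : x = 0
  · exact Or.inl h0
  · right
    have hx' : 0 < ‖x‖ := norm_pos_iff.2 h0
    rw [mem_ball_zero_iff]
    have h1 : Real.log ‖x‖ ≤ T := hx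
    have h2 : ‖x‖ ≤ Real.exp T := by
      rw [← Real.log_le_iff_le_exp hx']; exact h1
    exact h2.trans_lt (Real.exp_lt_exp.2 (by linarith))

lemma integrableOn_of_ball {w : E n → ℝ} (hn : 1 ≤ n) (h : ∀ r, IntegrableOn w (ball 0 r)) (T : ℝ) :
    IntegrableOn w ((fun x : E n => Real.log ‖x‖) ⁻¹' (Iic T)) := by
  have : Nonempty (Fin n) := ⟨⟨0, hn⟩⟩
  refine IntegrableOn.mono_set ?_ (preimage_Iic_subset T)
  rw [insert_eq]
  refine IntegrableOn.union ?_ (h _)
  have : volume ({0} : Set (E n)) = 0 := measure_singleton _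
  exact integrableOn_zero_measure_of this
where
  integrableOn_zero_measure_of {s : Set (E n)} {w : E n → ℝ} (hs : volume s = 0) :
      IntegrableOn w s := by
    unfold IntegrableOn
    rw [Measure.restrict_eq_zero.2 hs]
    exact integrable_zero_measure

lemma mD_lt_top (hn : 1 ≤ n) {u : E n → ℝ} (hu : ContDiff ℝ ∞ u) (T : ℝ) : mD u (Iic T) < ⊤ :=
  radM_lt_top (measurable_wD hu) measurableSet_Iic
    (integrableOn_of_ball hn (integrableOn_wD hn hu) T)

lemma mR_lt_top (hn : 1 ≤ n) {u : E n → ℝ} (hu : ContDiff ℝ ∞ u) (T : ℝ) : mR u (Iic T) < ⊤ :=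
  radM_lt_top (measurable_wR hu) measurableSet_Iic
    (integrableOn_of_ball hn (integrableOn_wR hn hu) T)

lemma DD_eq {u : E n → ℝ} (hu : ContDiff ℝ ∞ u) {ψ : ℝ → ℝ} (hψ : Measurable ψ) :
    DD u ψ = ∫ t, ψ t ∂(mD u) := by
  unfold mD
  rw [integral_radM (measurable_wD hu) (wD_nonneg u) hψ]
  rfl

lemma RR_eq {u : E n → ℝ} (hu : ContDiff ℝ ∞ u) {ψ : ℝ → ℝ} (hψ : Measurable ψ) :
    RR u ψ = ∫ t, ψ t ∂(mR u) := by
  unfold mR
  rw [integral_radM (measurable_wR hu) (wR_nonneg u) hψ]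
  rfl

lemma RI_eq {u : E n → ℝ} (hu : ContDiff ℝ ∞ u) (a b : ℝ) : RI u a b = (mR u).real (Ico a b) := by
  unfold RI
  rw [RR_eq hu (measurable_const.indicator measurableSet_Ico), integral_indicator measurableSet_Ico]
  simp

end Pool.Agent.H65.Stab
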