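import Pool.Agent.H65.Stab.Monot

set_option autoImplicit false

/-!
Scaling of stable solutions.
-/

open MeasureTheory Set Filter Topology Metric
open scoped ContDiff

namespace Pool.Agent.H65.Stab

open Pool.Agent.H94.Stab

variable {n : ℕ}

/-- rescaled function. -/
noncomputable def scl (μ r : ℝ) (u : E n → ℝ) : E n → ℝ := fun x => μ * u (r • x)

lemma scl_contDiff {μ r : ℝ} {u : E n → ℝ} (hu : ContDiff ℝ ∞ u) : ContDiff ℝ ∞ (scl μ r u) := by
  unfold scl
  exact contDiff_const.mul (hu.comp (contDiff_const_smul r))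

lemma pd_scl {μ r : ℝ} {u : E n → ℝ} (hu : Differentiable ℝ u) (i : Fin n) (x : E n) :
    pd i (scl μ r u) x = μ * r * pd i u (r • x) := by
  unfold pd
  have h1 : HasFDerivAt (fun x : E n => r • x) (r • ContinuousLinearMap.id ℝ (E n)) x :=
    (hasFDerivAt_id x).const_smul r
  have h2 : HasFDerivAt (fun x => u (r • x)) ((fderiv ℝ u (r • x)).comp
      (r • ContinuousLinearMap.id ℝ (E n))) x := (hu (r • x)).hasFDerivAt.comp x h1
  have h3 : HasFDerivAt (scl μ r u) (μ • ((fderiv ℝ u (r • x)).comp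
      (r • ContinuousLinearMap.id ℝ (E n)))) x := h2.const_mul μ
  rw [h3.fderiv]
  simp only [_root_.smul_apply, ContinuousLinearMap.comp_apply, smul_eq_mul,
    ContinuousLinearMap.id_apply, map_smul]
  ring

lemma gsq_scl {μ r : ℝ} {u : E n → ℝ} (hu : Differentiable ℝ u) (x : E n) :
    gsq (scl μ r u) x = μ ^ 2 * r ^ 2 * gsq u (r • x) := by
  unfold gsq
  simp_rw [pd_scl hu, mul_pow]
  rw [Finset.mul_sum]

lemma cc_scl {μ r : ℝ} {u : E n → ℝ} (hu : Differentiable ℝ u) (x : E n) :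
    cc (scl μ r u) x = μ * cc u (r • x) := by
  unfold cc
  simp_rw [pd_scl hu]
  rw [Finset.mul_sum]
  refine Finset.sum_congr rfl fun i _ => ?_
  simp only [PiLp.smul_apply, smul_eq_mul]
  ring

lemma integral_scale {r : ℝ} (hr : 0 < r) (G : E n → ℝ) :
    ∫ x, r ^ (n : ℝ) * G (r • x) = ∫ x, G x := by
  rw [integral_const_mul, Measure.integral_comp_smul_of_nonneg (volume : Measure (E n)) G r (hR := hr.le)]
  have : Module.finrank ℝ (E n) = n := by simp
  rw [this, smul_eq_mul, Real.rpow_natCast]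
  rw [← mul_assoc, mul_inv_cancel₀ (by positivity), one_mul]

lemma ae_ne_zero (hn : 1 ≤ n) : ∀ᵐ x : E n, x ≠ 0 := by
  have : Nonempty (Fin n) := ⟨⟨0, hn⟩⟩
  rw [ae_iff]
  have : {a : E n | ¬ a ≠ 0} = {0} := by ext; simp
  rw [this]
  exact measure_singleton _

lemma log_norm_smul {r : ℝ} (hr : 0 < r) {x : E n} (hx : x ≠ 0) :
    Real.log ‖r • x‖ = Real.log r + Real.log ‖x‖ := by
  rw [norm_smul, Real.norm_of_nonneg hr.le, Real.log_mul hr.ne' (norm_ne_zero_iff.2 hx)]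

lemma norm_smul_rpow {r : ℝ} (hr : 0 < r) (x : E n) (p : ℝ) :
    ‖r • x‖ ^ p = r ^ p * ‖x‖ ^ p := by
  rw [norm_smul, Real.norm_of_nonneg hr.le, Real.mul_rpow hr.le (norm_nonneg _)]

lemma DD_scl (hn : 1 ≤ n) {μ r : ℝ} (hr : 0 < r) {u : E n → ℝ} (hu : Differentiable ℝ u)
    (ψ : ℝ → ℝ) : DD (scl μ r u) ψ = μ ^ 2 * DD u (fun t => ψ (t - Real.log r)) := by
  unfold DD
  rw [← integral_const_mul, ← integral_scale hr (fun x : E n => μ ^ 2 *
    (gsq u x * ‖x‖ ^ (2 - (n : ℝ)) * ψ (Real.log ‖x‖ - Real.log r)))]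
  refine integral_congr_ae ?_
  filter_upwards [ae_ne_zero hn] with x hx
  rw [gsq_scl hu, log_norm_smul hr hx, norm_smul_rpow hr, add_sub_cancel_left]
  have h1 : r ^ (n : ℝ) * r ^ (2 - (n : ℝ)) = r ^ 2 := by
    rw [← Real.rpow_add hr]
    norm_num
  calc μ ^ 2 * r ^ 2 * gsq u (r • x) * ‖x‖ ^ (2 - (n : ℝ)) * ψ (Real.log ‖x‖)
      = (r ^ (n : ℝ) * r ^ (2 - (n : ℝ))) * (μ ^ 2 * gsq u (r • x) * ‖x‖ ^ (2 - (n : ℝ)) * ψ (Real.log ‖x‖)) := by
        rw [h1]; ring
    _ = _ := by ring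

lemma RR_scl (hn : 1 ≤ n) {μ r : ℝ} (hr : 0 < r) {u : E n → ℝ} (hu : Differentiable ℝ u)
    (ψ : ℝ → ℝ) : RR (scl μ r u) ψ = μ ^ 2 * RR u (fun t => ψ (t - Real.log r)) := by
  unfold RR
  rw [← integral_const_mul, ← integral_scale hr (fun x : E n => μ ^ 2 *
    (cc u x ^ 2 * ‖x‖ ^ (-(n : ℝ)) * ψ (Real.log ‖x‖ - Real.log r)))]
  refine integral_congr_ae ?_
  filter_upwards [ae_ne_zero hn] with x hx
  rw [cc_scl hu, log_norm_smul hr hx, norm_smul_rpow hr, add_sub_cancel_left]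
  have h1 : r ^ (n : ℝ) * r ^ (-(n : ℝ)) = 1 := by
    rw [← Real.rpow_add hr]
    simp
  calc (μ * cc u (r • x)) ^ 2 * ‖x‖ ^ (-(n : ℝ)) * ψ (Real.log ‖x‖)
      = (r ^ (n : ℝ) * r ^ (-(n : ℝ))) * (μ ^ 2 * cc u (r • x) ^ 2 * ‖x‖ ^ (-(n : ℝ)) * ψ (Real.log ‖x‖)) := by
        rw [h1]; ring
    _ = _ := by ring

lemma stable_scl (hn : 1 ≤ n) {Ω Ω' : Set (E n)} {f F : ℝ → ℝ} {u : E n → ℝ}
    (h : Stable Ω f F u) {μ r : ℝ} (hμ : 0 < μ) (hr : 0 < r) (hΩ' : IsOpen Ω')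
    (hsub : ∀ x ∈ Ω', r • x ∈ Ω) :
    Stable Ω' (fun s => μ * r ^ 2 * f (s / μ)) (fun s => μ ^ 2 * r ^ 2 * F (s / μ)) (scl μ r u) := by
  have hud : Differentiable ℝ u := h.smooth.differentiable (by simp)
  have hpd : ∀ i, pd i (scl μ r u) = scl (μ * r) r (pd i u) := by
    intro i; funext x; rw [pd_scl hud]; rfl
  have hpds : ∀ i, ContDiff ℝ ∞ (pd i u) := by
    intro i
    unfold pd
    exact (h.smooth.fderiv_right (m := ∞) (by simp)).clm_apply contDiff_const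
  refine ⟨hΩ', scl_contDiff h.smooth, ?_, ?_, ?_, ?_⟩
  · exact contDiff_const.mul (h.f_C1.comp (contDiff_id.div_const μ))
  · intro s
    have h1 : HasDerivAt (fun s : ℝ => s / μ) (1 / μ) s := (hasDerivAt_id s).div_const μ
    have h2 : HasDerivAt (fun s => F (s / μ)) (f (s / μ) * (1 / μ)) s := (h.F_deriv (s / μ)).comp s h1
    have h3 := h2.const_mul (μ ^ 2 * r ^ 2)
    refine h3.congr_deriv ?_
    field_simp
  · intro x hx
    have h1 : ∀ i, pd i (pd i (scl μ r u)) x = μ * r ^ 2 * pd i (pd i u) (r • x) := by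
      intro i
      rw [hpd, pd_scl ((hpds i).differentiable (by simp))]
      ring
    simp_rw [h1]
    rw [← Finset.mul_sum, h.eqn _ (hsub x hx)]
    simp only [scl]
    rw [mul_div_cancel_left₀ _ hμ.ne']
    ring
  · intro ξ hξ
    have hξd : Differentiable ℝ ξ := hξ.smooth.differentiable (by simp)
    have hr' : r⁻¹ ≠ 0 := inv_ne_zero hr.ne'
    have hT : Test Ω (scl 1 r⁻¹ ξ) := by
      have e0 : scl 1 r⁻¹ ξ = fun y => ξ (r⁻¹ • y) := by funext y; simp [scl]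
      have e1 : tsupport (fun y => ξ (r⁻¹ • y)) = (fun y => r⁻¹ • y) ⁻¹' (tsupport ξ) := by
        have := tsupport_comp_eq_preimage ξ (Homeomorph.smulOfNeZero r⁻¹ hr')
        exact this
      refine ⟨scl_contDiff hξ.smooth, ?_, ?_⟩
      · rw [e0]
        exact hξ.compact.comp_homeomorph (Homeomorph.smulOfNeZero r⁻¹ hr')
      · rw [e0, e1]
        intro y hy
        have h1 := hsub _ (hξ.sub hy)
        rwa [smul_smul, mul_inv_cancel₀ hr.ne', one_smul] at h1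
    have hQ := h.stab _ hT
    have e : Qf f u (scl 1 r⁻¹ ξ) = r ^ (n : ℝ) * (r ^ 2)⁻¹ *
        Qf (fun s => μ * r ^ 2 * f (s / μ)) (scl μ r u) ξ := by
      unfold Qf
      rw [← integral_scale hr (fun x => gsq (scl 1 r⁻¹ ξ) x - deriv f (u x) * scl 1 r⁻¹ ξ x ^ 2),
        ← integral_const_mul]
      refine integral_congr_ae (Eventually.of_forall fun x => ?_)
      simp only
      rw [gsq_scl hξd, smul_smul, inv_mul_cancel₀ hr.ne', one_smul]
      have h2 : deriv (fun s => μ * r ^ 2 * f (s / μ)) (scl μ r u x) = r ^ 2 * deriv f (u (r • x)) := by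
        have h1 : HasDerivAt (fun s : ℝ => s / μ) (1 / μ) (scl μ r u x) :=
          (hasDerivAt_id _).div_const μ
        have hfd : HasDerivAt f (deriv f (scl μ r u x / μ)) (scl μ r u x / μ) :=
          (h.f_C1.differentiable (by simp) _).hasDerivAt
        have h3 : HasDerivAt (fun s => f (s / μ)) (deriv f (scl μ r u x / μ) * (1 / μ)) (scl μ r u x) :=
          HasDerivAt.comp (h := fun s : ℝ => s / μ) (scl μ r u x) hfd h1
        have h4 := (h3.const_mul (μ * r ^ 2)).deriv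
        rw [h4]
        have h5 : scl μ r u x / μ = u (r • x) := by
          simp only [scl]; field_simp
        rw [h5]
        field_simp
      rw [h2]
      have h3 : scl 1 r⁻¹ ξ (r • x) = ξ x := by
        simp [scl, smul_smul, inv_mul_cancel₀ hr.ne']
      rw [h3]
      field_simp
    rw [e] at hQ
    have hpos : 0 < r ^ (n : ℝ) * (r ^ 2)⁻¹ := by positivity
    exact nonneg_of_mul_nonneg_right hQ hpos

end Pool.Agent.H65.Stab
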