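import Pool.Agent.H65.Stab.Rad

set_option autoImplicit false

/-!
The smooth steps `sg`, `cg`, the density `zeta` and plateau functions.
-/

open MeasureTheory Set Filter Topology Metric
open scoped ContDiff

namespace Pool.Agent.H65.Stab

open Pool.Agent.H94.Stab

lemma st_contDiff : ContDiff ℝ ∞ Real.smoothTransition := Real.smoothTransition.contDiff

lemma sg_contDiff : ContDiff ℝ ∞ sg := by
  unfold sg
  exact Real.contDiff_sin.comp (contDiff_const.mul st_contDiff)

lemma cg_contDiff : ContDiff ℝ ∞ cg := by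
  unfold cg
  exact Real.contDiff_cos.comp (contDiff_const.mul st_contDiff)

lemma sg_zero {t : ℝ} (ht : t ≤ 0) : sg t = 0 := by
  simp [sg, Real.smoothTransition.zero_of_nonpos ht]

lemma sg_one {t : ℝ} (ht : 1 ≤ t) : sg t = 1 := by
  simp [sg, Real.smoothTransition.one_of_one_le ht]

lemma cg_one {t : ℝ} (ht : t ≤ 0) : cg t = 1 := by
  simp [cg, Real.smoothTransition.zero_of_nonpos ht]

lemma cg_zero {t : ℝ} (ht : 1 ≤ t) : cg t = 0 := by
  simp [cg, Real.smoothTransition.one_of_one_le ht]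

lemma sq_add (t : ℝ) : sg t ^ 2 + cg t ^ 2 = 1 := by
  unfold sg cg
  exact Real.sin_sq_add_cos_sq _

lemma arg_mem (t : ℝ) : Real.pi / 2 * Real.smoothTransition t ∈ Icc 0 (Real.pi / 2) := by
  have h1 := Real.smoothTransition.nonneg t
  have h2 := Real.smoothTransition.le_one t
  have := Real.pi_pos
  constructor
  · positivity
  · nlinarith

lemma sg_nonneg (t : ℝ) : 0 ≤ sg t := by
  obtain ⟨h1, h2⟩ := arg_mem t
  exact Real.sin_nonneg_of_nonneg_of_le_pi h1 (by linarith [Real.pi_pos])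

lemma cg_nonneg (t : ℝ) : 0 ≤ cg t := by
  obtain ⟨h1, h2⟩ := arg_mem t
  exact Real.cos_nonneg_of_mem_Icc ⟨by linarith [Real.pi_pos], h2⟩

lemma sg_le_one (t : ℝ) : sg t ≤ 1 := Real.sin_le_one _
lemma cg_le_one (t : ℝ) : cg t ≤ 1 := Real.cos_le_one _

lemma sg_mono : Monotone sg := by
  intro s t hst
  obtain ⟨h1, h2⟩ := arg_mem s
  obtain ⟨h3, h4⟩ := arg_mem t
  unfold sg
  apply Real.sin_le_sin_of_le_of_le_pi_div_two (by linarith [Real.pi_pos]) h4
  exact mul_le_mul_of_nonneg_left (Real.smoothTransition.monotone hst) (by positivity)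

lemma dsg_nonneg (t : ℝ) : 0 ≤ deriv sg t := sg_mono.deriv_nonneg

lemma continuous_dsg : Continuous (deriv sg) := sg_contDiff.continuous_deriv (by simp)
lemma continuous_dcg : Continuous (deriv cg) := cg_contDiff.continuous_deriv (by simp)

/-- a `C¹` function constant on a half line has zero derivative on its closure. -/
lemma deriv_zero_Iic {g : ℝ → ℝ} (hg : Continuous (deriv g)) {a c : ℝ} (h : ∀ t ≤ a, g t = c)
    {t : ℝ} (ht : t ≤ a) : deriv g t = 0 := by
  have h1 : ∀ s ∈ Iio a, deriv g s = 0 := by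
    intro s hs
    have : g =ᶠ[𝓝 s] fun _ => c := by
      filter_upwards [Iio_mem_nhds hs] with r hr
      exact h r (le_of_lt hr)
    rw [this.deriv_eq, deriv_const]
  have h2 : ∀ s ∈ closure (Iio a), deriv g s = 0 := by
    have hcl : IsClosed {s | deriv g s = 0} := isClosed_eq hg continuous_const
    exact fun s hs => closure_minimal (fun s hs => h1 s hs) hcl hs
  rw [closure_Iio] at h2
  exact h2 t ht

lemma deriv_zero_Ici {g : ℝ → ℝ} (hg : Continuous (deriv g)) {a c : ℝ} (h : ∀ t ≥ a, g t = c)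
    {t : ℝ} (ht : a ≤ t) : deriv g t = 0 := by
  have h1 : ∀ s ∈ Ioi a, deriv g s = 0 := by
    intro s hs
    have : g =ᶠ[𝓝 s] fun _ => c := by
      filter_upwards [Ioi_mem_nhds hs] with r hr
      exact h r (le_of_lt hr)
    rw [this.deriv_eq, deriv_const]
  have h2 : ∀ s ∈ closure (Ioi a), deriv g s = 0 := by
    have hcl : IsClosed {s | deriv g s = 0} := isClosed_eq hg continuous_const
    exact fun s hs => closure_minimal (fun s hs => h1 s hs) hcl hs
  rw [closure_Ioi] at h2
  exact h2 t ht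

lemma dsg_zero_le {t : ℝ} (ht : t ≤ 0) : deriv sg t = 0 :=
  deriv_zero_Iic continuous_dsg (fun _ h => sg_zero h) ht
lemma dsg_zero_ge {t : ℝ} (ht : 1 ≤ t) : deriv sg t = 0 :=
  deriv_zero_Ici continuous_dsg (fun _ h => sg_one h) ht
lemma dcg_zero_le {t : ℝ} (ht : t ≤ 0) : deriv cg t = 0 :=
  deriv_zero_Iic continuous_dcg (fun _ h => cg_one h) ht
lemma dcg_zero_ge {t : ℝ} (ht : 1 ≤ t) : deriv cg t = 0 :=
  deriv_zero_Ici continuous_dcg (fun _ h => cg_zero h) ht

lemma zeta_nonneg (t : ℝ) : 0 ≤ zeta t := by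
  unfold zeta
  have := sg_nonneg t
  have := dsg_nonneg t
  positivity

lemma zeta_zero_le {t : ℝ} (ht : t ≤ 0) : zeta t = 0 := by simp [zeta, sg_zero ht]
lemma zeta_zero_ge {t : ℝ} (ht : 1 ≤ t) : zeta t = 0 := by simp [zeta, dsg_zero_ge ht]

lemma zeta_contDiff : ContDiff ℝ ∞ zeta := by
  unfold zeta
  have h1 : ContDiff ℝ ∞ (deriv sg) := by
    have : ContDiff ℝ (∞ + 1) sg := sg_contDiff
    exact (contDiff_succ_iff_deriv.1 this).2.2
  exact (contDiff_const.mul sg_contDiff).mul h1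

lemma hasDerivAt_sg (t : ℝ) : HasDerivAt sg (deriv sg t) t :=
  (sg_contDiff.differentiable (by simp) t).hasDerivAt
lemma hasDerivAt_cg (t : ℝ) : HasDerivAt cg (deriv cg t) t :=
  (cg_contDiff.differentiable (by simp) t).hasDerivAt

lemma hasDerivAt_sgsq (t : ℝ) : HasDerivAt (fun t => sg t ^ 2) (zeta t) t := by
  have := (hasDerivAt_sg t).fun_pow 2
  refine this.congr_deriv ?_
  simp [zeta]

lemma cg_dcg (t : ℝ) : 2 * cg t * deriv cg t = - zeta t := by
  have h1 : HasDerivAt (fun t => cg t ^ 2) (2 * cg t * deriv cg t) t := by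
    have := (hasDerivAt_cg t).fun_pow 2
    refine this.congr_deriv ?_
    simp
  have h2 : HasDerivAt (fun t => 1 - sg t ^ 2) (- zeta t) t := by
    have := (hasDerivAt_sgsq t).const_sub 1
    exact this
  have h3 : (fun t => cg t ^ 2) = fun t => 1 - sg t ^ 2 := by
    funext t; linarith [sq_add t]
  rw [h3] at h1
  exact h1.unique h2

lemma exists_K : ∃ K : ℝ, 0 ≤ K ∧ (∀ t, |deriv sg t| ≤ K) ∧ (∀ t, |deriv cg t| ≤ K) ∧ ∀ t, zeta t ≤ K := by
  obtain ⟨K1, hK1⟩ := (isCompact_Icc (a := (0 : ℝ)) (b := 1)).exists_bound_of_continuousOn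
    continuous_dsg.continuousOn
  obtain ⟨K2, hK2⟩ := (isCompact_Icc (a := (0 : ℝ)) (b := 1)).exists_bound_of_continuousOn
    continuous_dcg.continuousOn
  have h1 : ∀ t, |deriv sg t| ≤ max K1 0 := by
    intro t
    rcases le_total t 0 with h | h
    · rw [dsg_zero_le h]; simp
    rcases le_total 1 t with h' | h'
    · rw [dsg_zero_ge h']; simp
    exact (hK1 t ⟨h, h'⟩).trans (le_max_left _ _)
  have h2 : ∀ t, |deriv cg t| ≤ max K2 0 := by
    intro t
    rcases le_total t 0 with h | h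
    · rw [dcg_zero_le h]; simp
    rcases le_total 1 t with h' | h'
    · rw [dcg_zero_ge h']; simp
    exact (hK2 t ⟨h, h'⟩).trans (le_max_left _ _)
  have e1 : 0 ≤ max K1 0 := le_max_right _ _
  have e2 : 0 ≤ max K2 0 := le_max_right _ _
  refine ⟨2 * (max K1 0 + max K2 0), by positivity, fun t => ?_, fun t => ?_, fun t => ?_⟩
  · have := h1 t; linarith
  · have := h2 t; linarith
  · have h3 := h1 t
    rw [abs_of_nonneg (dsg_nonneg t)] at h3
    have h4 := sg_nonneg t
    have h5 := sg_le_one t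
    unfold zeta
    nlinarith [dsg_nonneg t]

/-- plateau function on `[a, b+1]`, `= 1` on `[a+1, b]`. -/
noncomputable def plat (a b : ℝ) (t : ℝ) : ℝ := sg (t - a) * cg (t - b)

lemma plat_contDiff (a b : ℝ) : ContDiff ℝ ∞ (plat a b) := by
  unfold plat
  exact (sg_contDiff.comp (contDiff_id.sub contDiff_const)).mul
    (cg_contDiff.comp (contDiff_id.sub contDiff_const))

lemma plat_zero {a b t : ℝ} (h : t ≤ a ∨ b + 1 ≤ t) : plat a b t = 0 := by
  unfold plat
  rcases h with h | h
  · rw [sg_zero (by linarith), zero_mul]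
  · rw [cg_zero (by linarith), mul_zero]

lemma plat_one {a b t : ℝ} (h1 : a + 1 ≤ t) (h2 : t ≤ b) : plat a b t = 1 := by
  unfold plat
  rw [sg_one (by linarith), cg_one (by linarith), mul_one]

lemma plat_nonneg (a b t : ℝ) : 0 ≤ plat a b t := mul_nonneg (sg_nonneg _) (cg_nonneg _)
lemma plat_le_one (a b t : ℝ) : plat a b t ≤ 1 :=
  mul_le_one₀ (sg_le_one _) (cg_nonneg _) (cg_le_one _)

lemma plat_tsupport (a b : ℝ) : tsupport (plat a b) ⊆ Icc a (b + 1) := by
  refine closure_minimal ?_ isClosed_Icc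
  intro t ht
  by_contra hcon
  rw [mem_Icc, not_and_or, not_le, not_le] at hcon
  exact ht (plat_zero (hcon.imp le_of_lt le_of_lt))

lemma plat_bump (a b : ℝ) : Bump1 (plat a b) :=
  ⟨plat_contDiff a b, HasCompactSupport.of_support_subset_isCompact isCompact_Icc
    (subset_closure.trans (plat_tsupport a b))⟩

lemma hasDerivAt_plat (a b t : ℝ) : HasDerivAt (plat a b)
    (deriv sg (t - a) * cg (t - b) + sg (t - a) * deriv cg (t - b)) t := by
  have h1 : HasDerivAt (fun t => sg (t - a)) (deriv sg (t - a)) t := by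
    have := (hasDerivAt_sg (t - a)).comp_sub_const t a
    exact this
  have h2 : HasDerivAt (fun t => cg (t - b)) (deriv cg (t - b)) t := by
    have := (hasDerivAt_cg (t - b)).comp_sub_const t b
    exact this
  exact h1.fun_mul h2

lemma deriv_plat (a b t : ℝ) : deriv (plat a b) t
    = deriv sg (t - a) * cg (t - b) + sg (t - a) * deriv cg (t - b) := (hasDerivAt_plat a b t).deriv

lemma plat_dplat {a b : ℝ} (hab : a + 1 ≤ b) (t : ℝ) :
    2 * plat a b t * deriv (plat a b) t = zeta (t - a) - zeta (t - b) := by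
  rw [deriv_plat]
  unfold plat
  rcases le_total t b with h | h
  · rw [cg_one (sub_nonpos.2 h), dcg_zero_le (sub_nonpos.2 h), zeta_zero_le (sub_nonpos.2 h)]
    unfold zeta
    ring
  · have h1 : 1 ≤ t - a := by linarith
    rw [sg_one h1, dsg_zero_ge h1, zeta_zero_ge h1]
    have := cg_dcg (t - b)
    linarith

end Pool.Agent.H65.Stab
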